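import Mathlib

/-!
Inversion of discrete Laplace transforms in one variable.
-/

set_option autoImplicit false

namespace Pool.Agent.Lib.MP_0d9445_pr.Lim

open Filter Topology MeasureTheory Set Real

namespace LapAux

lemma wsum {w u : ℕ → ℝ} {S B : ℝ} (hw : ∀ j, 0 ≤ w j) (hS : HasSum w S)
    (hu : ∀ j, |u j| ≤ B) : Summable (fun j => w j * u j) ∧ |∑' j, w j * u j| ≤ S * B := by
  have h1 : ∀ j, ‖w j * u j‖ ≤ w j * B := fun j => by
    rw [Real.norm_eq_abs, abs_mul, abs_of_nonneg (hw j)]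
    exact mul_le_mul_of_nonneg_left (hu j) (hw j)
  exact ⟨Summable.of_norm_bounded (hS.mul_right B).summable h1,
    tsum_of_norm_bounded (hS.mul_right B) h1⟩

lemma hasSum_exp {m α : ℝ} (hm : 0 < m) (hα : 0 < α) :
    HasSum (fun j : ℕ => 1 / m * exp (-(α * ((j + 1) / m)))) (1 / (m * (exp (α / m) - 1))) := by
  have hx : 0 < α / m := div_pos hα hm
  have hr : exp (-(α / m)) < 1 := by rw [exp_lt_one_iff]; linarith
  have h := (hasSum_geometric_of_lt_one (exp_pos _).le hr).mul_left (1 / m * exp (-(α / m)))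
  have h1 : 1 < exp (α / m) := by rw [one_lt_exp_iff]; exact hx
  have e1 : (fun j : ℕ => 1 / m * exp (-(α * ((j + 1) / m)))) =
      fun j : ℕ => 1 / m * exp (-(α / m)) * exp (-(α / m)) ^ j := by
    funext j
    rw [← exp_nat_mul, mul_assoc, ← exp_add]
    congr 2
    ring
  have e2 : 1 / (m * (exp (α / m) - 1)) =
      1 / m * exp (-(α / m)) * (1 - exp (-(α / m)))⁻¹ := by
    rw [exp_neg]
    have h2 : exp (α / m) - 1 ≠ 0 := by linarith
    have h3 : exp (α / m) ≠ 0 := (exp_pos _).ne'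
    field_simp
  rw [e1, e2]
  exact h

lemma hasSum_res {m α : ℝ} (hm : 0 < m) (hα : 0 < α) :
    HasSum (fun j : ℕ => 1 / m * ((1 + α / m)⁻¹) ^ (j + 1)) (1 / α) := by
  have hx : 0 < α / m := div_pos hα hm
  have hr : (1 + α / m)⁻¹ < 1 := inv_lt_one_of_one_lt₀ (by linarith)
  have h := (hasSum_geometric_of_lt_one (by positivity) hr).mul_left (1 / m * (1 + α / m)⁻¹)
  have e1 : (fun j : ℕ => 1 / m * ((1 + α / m)⁻¹) ^ (j + 1)) =
      fun j : ℕ => 1 / m * (1 + α / m)⁻¹ * ((1 + α / m)⁻¹) ^ j := by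
    funext j
    rw [pow_succ]
    ring
  have e2 : 1 / α = 1 / m * (1 + α / m)⁻¹ * (1 - (1 + α / m)⁻¹)⁻¹ := by
    have h2 : m + α ≠ 0 := by positivity
    have h3 : 1 - (1 + α / m)⁻¹ = α / (m + α) := by
      field_simp
      ring
    rw [h3]
    field_simp
  rw [e1, e2]
  exact h

lemma tendsto_mass {α : ℝ} (hα : 0 < α) :
    Tendsto (fun m : ℝ => 1 / (m * (exp (α / m) - 1))) atTop (𝓝 (1 / α)) := by
  refine Tendsto.div tendsto_const_nhds ?_ hα.ne'
  have h0 : Tendsto (fun m : ℝ => α / m) atTop (𝓝 0) := tendsto_const_nhds.div_atTop tendsto_id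
  have h1 : Tendsto (fun m : ℝ => α * exp (α / m)) atTop (𝓝 α) := by
    have := ((continuous_exp.tendsto 0).comp h0).const_mul α
    simpa using this
  refine tendsto_of_tendsto_of_tendsto_of_le_of_le' tendsto_const_nhds h1 ?_ ?_
  · filter_upwards [eventually_gt_atTop 0] with m hm
    have := add_one_le_exp (α / m)
    have h2 : m * (α / m) = α := by field_simp
    nlinarith
  · filter_upwards [eventually_gt_atTop 0] with m hm
    have h3 := add_one_le_exp (-(α / m))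
    have h4 : exp (-(α / m)) * exp (α / m) = 1 := by rw [← exp_add]; simp
    have h5 : exp (α / m) - 1 ≤ α / m * exp (α / m) := by
      nlinarith [exp_pos (α / m)]
    have h2 : m * (α / m * exp (α / m)) = α * exp (α / m) := by field_simp
    rw [← h2]
    exact mul_le_mul_of_nonneg_left h5 hm.le

/-- The node. -/
noncomputable def nd (m : ℝ) (j : ℕ) : ℝ := exp (-((j + 1) / m))

lemma nd_mem {m : ℝ} (hm : 0 < m) (j : ℕ) : nd m j ∈ Icc (0 : ℝ) 1 :=
  ⟨(exp_pos _).le, by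
    rw [nd, exp_le_one_iff]
    have : (0 : ℝ) ≤ (j + 1) / m := by positivity
    linarith⟩

/-- The discrete functional. -/
noncomputable def ds (m : ℝ) (a : ℕ → ℝ) (φ : ℝ → ℝ) : ℝ :=
  ∑' j, 1 / m * nd m j * (φ (nd m j) * a j)

/-- The continuous functional. -/
noncomputable def cs (g : ℝ → ℝ) (φ : ℝ → ℝ) : ℝ :=
  ∫ s in Ioi (0 : ℝ), exp (-s) * (φ (exp (-s)) * g s)

lemma ds_bound {m : ℝ} (hm : 0 < m) {u : ℕ → ℝ} {B : ℝ} (hu : ∀ j, |u j| ≤ B) :
    Summable (fun j => 1 / m * nd m j * u j) ∧ |∑' j, 1 / m * nd m j * u j| ≤ B := by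
  have h := hasSum_exp hm one_pos
  simp only [one_mul] at h
  obtain ⟨h1, h2⟩ := wsum (w := fun j => 1 / m * nd m j)
    (fun j => mul_nonneg (by positivity) (nd_mem hm j).1) h hu
  refine ⟨h1, h2.trans ?_⟩
  have hB : 0 ≤ B := (abs_nonneg _).trans (hu 0)
  have h3 : 1 ≤ m * (exp (1 / m) - 1) := by
    have := add_one_le_exp (1 / m)
    have h2 : m * (1 / m) = 1 := by field_simp
    nlinarith
  have h4 : 1 / (m * (exp (1 / m) - 1)) ≤ 1 := by
    rw [div_le_one (by linarith)]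
    exact h3
  nlinarith

lemma bdd01 {φ : ℝ → ℝ} (hφ : Continuous φ) : ∃ B, ∀ x ∈ Icc (0 : ℝ) 1, |φ x| ≤ B :=
  isCompact_Icc.exists_bound_of_continuousOn hφ.continuousOn

lemma ds_summable {m C : ℝ} (hm : 0 < m) {a : ℕ → ℝ} (ha : ∀ j, |a j| ≤ C) {φ : ℝ → ℝ}
    (hφ : Continuous φ) : Summable fun j => 1 / m * nd m j * (φ (nd m j) * a j) := by
  obtain ⟨B, hB⟩ := bdd01 hφ
  refine (ds_bound hm (B := B * C) fun j => ?_).1
  rw [abs_mul]
  exact mul_le_mul (hB _ (nd_mem hm j)) (ha j) (abs_nonneg _)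
    ((abs_nonneg _).trans (hB _ (nd_mem hm j)))

lemma ds_add {m C : ℝ} (hm : 0 < m) {a : ℕ → ℝ} (ha : ∀ j, |a j| ≤ C) {φ ψ : ℝ → ℝ}
    (hφ : Continuous φ) (hψ : Continuous ψ) :
    ds m a (fun x => φ x + ψ x) = ds m a φ + ds m a ψ := by
  rw [ds, ds, ds, ← (ds_summable hm ha hφ).tsum_add (ds_summable hm ha hψ)]
  exact tsum_congr fun j => by ring

lemma ds_near {m C ε : ℝ} (hm : 0 < m) {a : ℕ → ℝ} (ha : ∀ j, |a j| ≤ C) {φ ψ : ℝ → ℝ}
    (hφ : Continuous φ) (hψ : Continuous ψ) (h : ∀ x ∈ Icc (0 : ℝ) 1, |φ x - ψ x| ≤ ε) :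
    |ds m a φ - ds m a ψ| ≤ ε * C := by
  rw [ds, ds, ← (ds_summable hm ha hφ).tsum_sub (ds_summable hm ha hψ)]
  have := (ds_bound hm (u := fun j => (φ (nd m j) - ψ (nd m j)) * a j) (B := ε * C)
    fun j => by
      rw [abs_mul]
      exact mul_le_mul (h _ (nd_mem hm j)) (ha j) (abs_nonneg _)
        ((abs_nonneg _).trans (h _ (nd_mem hm j)))).2
  refine le_of_eq_of_le (congrArg abs (tsum_congr fun j => ?_)) this
  ring

lemma exp_mem {s : ℝ} (hs : s ∈ Ioi (0 : ℝ)) : exp (-s) ∈ Icc (0 : ℝ) 1 :=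
  ⟨(exp_pos _).le, by
    rw [exp_le_one_iff]
    have : 0 < s := hs
    linarith⟩

lemma cs_bound {u : ℝ → ℝ} {B : ℝ} (hm : AEStronglyMeasurable u (volume.restrict (Ioi 0)))
    (hu : ∀ s ∈ Ioi (0 : ℝ), |u s| ≤ B) :
    IntegrableOn (fun s => exp (-s) * u s) (Ioi 0) ∧
      |∫ s in Ioi (0 : ℝ), exp (-s) * u s| ≤ B := by
  have hi : IntegrableOn (fun s => exp (-s) * B) (Ioi 0) :=
    (integrableOn_exp_neg_Ioi 0).mul_const B
  have hb : ∀ᵐ s ∂(volume.restrict (Ioi (0 : ℝ))), ‖exp (-s) * u s‖ ≤ exp (-s) * B := by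
    filter_upwards [ae_restrict_mem measurableSet_Ioi] with s hs
    rw [Real.norm_eq_abs, abs_mul, abs_of_pos (exp_pos _)]
    exact mul_le_mul_of_nonneg_left (hu s hs) (exp_pos _).le
  refine ⟨Integrable.mono' hi ((by fun_prop : Continuous fun s : ℝ =>
    exp (-s)).aestronglyMeasurable.mul hm) hb, ?_⟩
  have := norm_integral_le_of_norm_le hi hb
  rwa [integral_mul_const, integral_exp_neg_Ioi_zero, one_mul] at this

lemma cs_int {g : ℝ → ℝ} {C : ℝ} (hm : AEStronglyMeasurable g (volume.restrict (Ioi 0)))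
    (hg : ∀ s ∈ Ioi (0 : ℝ), |g s| ≤ C) {φ : ℝ → ℝ} (hφ : Continuous φ) :
    IntegrableOn (fun s => exp (-s) * (φ (exp (-s)) * g s)) (Ioi 0) := by
  obtain ⟨B, hB⟩ := bdd01 hφ
  refine (cs_bound (u := fun s => φ (exp (-s)) * g s) (B := B * C)
    ((by fun_prop : Continuous fun s : ℝ =>
      φ (exp (-s))).aestronglyMeasurable.mul hm) fun s hs => ?_).1
  rw [abs_mul]
  exact mul_le_mul (hB _ (exp_mem hs)) (hg s hs) (abs_nonneg _)
    ((abs_nonneg _).trans (hB _ (exp_mem hs)))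

lemma cs_add {g : ℝ → ℝ} {C : ℝ} (hm : AEStronglyMeasurable g (volume.restrict (Ioi 0)))
    (hg : ∀ s ∈ Ioi (0 : ℝ), |g s| ≤ C) {φ ψ : ℝ → ℝ} (hφ : Continuous φ) (hψ : Continuous ψ) :
    cs g (fun x => φ x + ψ x) = cs g φ + cs g ψ := by
  rw [cs, cs, cs, ← integral_add (cs_int hm hg hφ) (cs_int hm hg hψ)]
  exact integral_congr_ae (Eventually.of_forall fun s => by ring)

lemma cs_near {g : ℝ → ℝ} {C ε : ℝ} (hm : AEStronglyMeasurable g (volume.restrict (Ioi 0)))
    (hg : ∀ s ∈ Ioi (0 : ℝ), |g s| ≤ C) {φ ψ : ℝ → ℝ} (hφ : Continuous φ) (hψ : Continuous ψ)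
    (h : ∀ x ∈ Icc (0 : ℝ) 1, |φ x - ψ x| ≤ ε) : |cs g φ - cs g ψ| ≤ ε * C := by
  rw [cs, cs, ← integral_sub (cs_int hm hg hφ) (cs_int hm hg hψ)]
  have := (cs_bound (u := fun s => (φ (exp (-s)) - ψ (exp (-s))) * g s) (B := ε * C)
    ((by fun_prop : Continuous fun s : ℝ =>
      φ (exp (-s)) - ψ (exp (-s))).aestronglyMeasurable.mul hm) fun s hs => by
      rw [abs_mul]
      exact mul_le_mul (h _ (exp_mem hs)) (hg s hs) (abs_nonneg _)
        ((abs_nonneg _).trans (h _ (exp_mem hs)))).2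
  convert this using 3
  funext s
  ring

/-- The resolvent kernel may be replaced by the exponential kernel. -/
lemma kernel_swap {m C α : ℝ} (hm : 0 < m) (hα : 0 < α) {a : ℕ → ℝ} (ha : ∀ j, |a j| ≤ C) :
    |(∑' j : ℕ, 1 / m * ((1 + α / m)⁻¹) ^ (j + 1) * a j) -
      ∑' j : ℕ, 1 / m * exp (-(α * ((j + 1) / m))) * a j| ≤
      (1 / α - 1 / (m * (exp (α / m) - 1))) * C := by
  have hx : 0 < α / m := div_pos hα hm
  have h1 := hasSum_res hm hα
  have h2 := hasSum_exp hm hα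
  have s1 := (wsum (fun j => by positivity) h1 ha).1
  have s2 := (wsum (fun j => by positivity) h2 ha).1
  rw [← s1.tsum_sub s2]
  have := (wsum (fun j => ?_) (h1.sub h2) ha).2
  · refine le_of_eq_of_le (congrArg abs (tsum_congr fun j => ?_)) this
    ring
  · rw [← mul_sub]
    refine mul_nonneg (by positivity) (sub_nonneg.2 ?_)
    have h3 : exp (-(α * ((j + 1) / m))) = (exp (α / m))⁻¹ ^ (j + 1) := by
      rw [← exp_neg, ← exp_nat_mul]
      congr 1
      push_cast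
      ring
    rw [h3]
    refine pow_le_pow_left₀ (by positivity) ?_ _
    refine inv_anti₀ (by positivity) ?_
    linarith [add_one_le_exp (α / m)]

lemma tendsto_ds {a : ℕ → ℕ → ℝ} {m : ℕ → ℝ} {g : ℝ → ℝ} {C : ℝ} (hm : Tendsto m atTop atTop)
    (ha : ∀ᶠ n in atTop, ∀ j, |a n j| ≤ C)
    (hgm : AEStronglyMeasurable g (volume.restrict (Ioi 0)))
    (hg : ∀ s ∈ Ioi (0 : ℝ), |g s| ≤ C)
    (hL : ∀ i : ℕ, Tendsto
      (fun n => ∑' j : ℕ, 1 / m n * ((1 + ((i : ℝ) + 1) / m n)⁻¹) ^ (j + 1) * a n j) atTop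
      (𝓝 (∫ s in Ioi (0 : ℝ), exp (-(((i : ℝ) + 1) * s)) * g s)))
    {φ : ℝ → ℝ} (hφ : Continuous φ) :
    Tendsto (fun n => ds (m n) (a n) φ) atTop (𝓝 (cs g φ)) := by
  have hpos : ∀ᶠ n in atTop, 0 < m n := hm.eventually (eventually_gt_atTop 0)
  have hmono : ∀ (i : ℕ) (c : ℝ), Tendsto (fun n => ds (m n) (a n) fun x => c * x ^ i) atTop
      (𝓝 (cs g fun x => c * x ^ i)) := by
    intro i c
    have hα : (0 : ℝ) < i + 1 := by positivity
    have e1 : ∀ n, (ds (m n) (a n) fun x => c * x ^ i) =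
        c * ∑' j : ℕ, 1 / m n * exp (-(((i : ℝ) + 1) * ((j + 1) / m n))) * a n j := by
      intro n
      rw [ds, ← tsum_mul_left]
      refine tsum_congr fun j => ?_
      have : exp (-(((i : ℝ) + 1) * ((j + 1) / m n))) = nd (m n) j ^ (i + 1) := by
        rw [nd, ← exp_nat_mul]
        congr 1
        push_cast
        ring
      rw [this]
      ring
    have e2 : (cs g fun x => c * x ^ i) =
        c * ∫ s in Ioi (0 : ℝ), exp (-(((i : ℝ) + 1) * s)) * g s := by
      rw [cs, ← integral_const_mul]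
      refine integral_congr_ae (Eventually.of_forall fun s => ?_)
      have : exp (-(((i : ℝ) + 1) * s)) = exp (-s) ^ (i + 1) := by
        rw [← exp_nat_mul]
        congr 1
        push_cast
        ring
      simp only [this]
      ring
    simp only [e1, e2]
    refine Tendsto.const_mul c ?_
    have h0 : Tendsto (fun n => (1 / ((i : ℝ) + 1) -
        1 / (m n * (exp (((i : ℝ) + 1) / m n) - 1))) * C) atTop (𝓝 0) := by
      have := ((tendsto_const_nhds (x := 1 / ((i : ℝ) + 1))).sub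
        ((tendsto_mass hα).comp hm)).mul_const C
      simpa using this
    have h1 : Tendsto (fun n =>
        (∑' j : ℕ, 1 / m n * ((1 + ((i : ℝ) + 1) / m n)⁻¹) ^ (j + 1) * a n j) -
        ∑' j : ℕ, 1 / m n * exp (-(((i : ℝ) + 1) * ((j + 1) / m n))) * a n j) atTop (𝓝 0) := by
      refine squeeze_zero_norm' ?_ h0
      filter_upwards [hpos, ha] with n h1 h2
      exact kernel_swap h1 hα h2
    simpa using (hL i).sub h1
  have hpoly : ∀ p : Polynomial ℝ, Tendsto (fun n => ds (m n) (a n) fun x => p.eval x) atTop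
      (𝓝 (cs g fun x => p.eval x)) := by
    intro p
    induction p using Polynomial.induction_on' with
    | add p q hp hq =>
      simp only [Polynomial.eval_add]
      rw [cs_add hgm hg p.continuous q.continuous]
      refine (hp.add hq).congr' ?_
      filter_upwards [hpos, ha] with n h1 h2
      exact (ds_add h1 h2 p.continuous q.continuous).symm
    | monomial i c =>
      simp only [Polynomial.eval_monomial]
      exact hmono i c
  have hC : 0 ≤ C := (abs_nonneg _).trans (hg 1 (by simp))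
  rw [Metric.tendsto_atTop]
  intro ε hε
  obtain ⟨p, hp⟩ := exists_polynomial_near_of_continuousOn 0 1 φ hφ.continuousOn
    (ε / 3 / (C + 1)) (by positivity)
  have h3 : ε / 3 / (C + 1) * C < ε / 3 := by
    rw [div_mul_eq_mul_div, div_lt_iff₀ (by positivity)]
    nlinarith
  have h4 := (Metric.tendsto_nhds.1 (hpoly p)) (ε / 3) (by positivity)
  rw [← eventually_atTop]
  filter_upwards [hpos, ha, h4] with n h1 h2 h5
  have b1 := ds_near h1 h2 p.continuous hφ fun x hx => (hp x hx).le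
  have b2 := cs_near hgm hg p.continuous hφ fun x hx => (hp x hx).le
  rw [Real.dist_eq] at h5 ⊢
  rw [abs_le] at b1 b2
  rw [abs_lt] at h5 ⊢
  constructor <;> linarith [b1.1, b1.2, b2.1, b2.2, h5.1, h5.2]

end LapAux

open LapAux in
/-- Convergence of the discrete Laplace transforms at the integers `1, 2, ...` and asymptotic
continuity at one time `t` give convergence at that time. -/
theorem laplace_point {a : ℕ → ℕ → ℝ} {m : ℕ → ℝ} {g : ℝ → ℝ} {C : ℝ}
    (hm : Tendsto m atTop atTop) (ha : ∀ᶠ n in atTop, ∀ j, |a n j| ≤ C)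
    (hgm : AEStronglyMeasurable g (volume.restrict (Ioi 0)))
    (hg : ∀ s ∈ Ioi (0 : ℝ), |g s| ≤ C)
    (hL : ∀ i : ℕ, Tendsto
      (fun n => ∑' j : ℕ, 1 / m n * ((1 + ((i : ℝ) + 1) / m n)⁻¹) ^ (j + 1) * a n j) atTop
      (𝓝 (∫ s in Ioi (0 : ℝ), exp (-(((i : ℝ) + 1) * s)) * g s)))
    {t : ℝ} (ht : 0 ≤ t) (hc : ContinuousWithinAt g (Ioi 0) t) {b : ℕ → ℝ}
    (heq : ∀ ε > 0, ∃ δ > 0, ∀ᶠ n in atTop, ∀ j : ℕ, |j / m n - t| ≤ δ → |a n j - b n| ≤ ε) :
    Tendsto b atTop (𝓝 (g t)) := by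
  have hpos : ∀ᶠ n in atTop, 0 < m n := hm.eventually (eventually_gt_atTop 0)
  rw [Metric.tendsto_atTop]
  intro ε0 hε0
  rw [← eventually_atTop]
  obtain ⟨ε, hε, hε8⟩ : ∃ ε > 0, 8 * ε = ε0 := ⟨ε0 / 8, by positivity, by ring⟩
  obtain ⟨δ1, hδ1, h1⟩ := heq ε hε
  obtain ⟨δ2, hδ2, h2⟩ := Metric.continuousWithinAt_iff.1 hc ε hε
  obtain ⟨r, hr, h3⟩ := Metric.continuousAt_iff.1 (Real.continuousAt_log (exp_pos (-t)).ne')
    (min (δ1 / 2) δ2) (by positivity)
  let φ : ℝ → ℝ := fun x => max 0 (r - |x - exp (-t)|)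
  have hφ : Continuous φ := by fun_prop
  have hφ0 : ∀ x, 0 ≤ φ x := fun x => le_max_left _ _
  have hsup : ∀ s, φ (exp (-s)) ≠ 0 → |s - t| < min (δ1 / 2) δ2 := by
    intro s hs
    have h4 : |exp (-s) - exp (-t)| < r := by
      by_contra h
      exact hs (max_eq_left (by linarith [not_lt.1 h]))
    have h5 := h3 (x := exp (-s)) h4
    rw [log_exp, log_exp, Real.dist_eq] at h5
    rw [abs_sub_comm]
    convert h5 using 2
    ring
  have one_m : AEStronglyMeasurable (fun _ : ℝ => (1 : ℝ)) (volume.restrict (Ioi 0)) :=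
    aestronglyMeasurable_const
  have one_b : ∀ s ∈ Ioi (0 : ℝ), |(fun _ : ℝ => (1 : ℝ)) s| ≤ 1 := fun s _ => by simp
  have tA := tendsto_ds hm ha hgm hg hL hφ
  have tD := tendsto_ds (a := fun _ _ => 1) (C := 1) hm (Eventually.of_forall fun n j => by simp)
    one_m one_b (fun i => by
      have hα : (0 : ℝ) < i + 1 := by positivity
      have e : ∫ s in Ioi (0 : ℝ), exp (-(((i : ℝ) + 1) * s)) * 1 = 1 / ((i : ℝ) + 1) := by
        have := integral_exp_mul_Ioi (a := -((i : ℝ) + 1)) (by linarith) 0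
        simp only [mul_one, ← neg_mul]
        rw [this, mul_zero, exp_zero, neg_div_neg_eq]
      rw [e]
      refine tendsto_const_nhds.congr' ?_
      filter_upwards [hpos] with n hn
      simp only [mul_one]
      exact (hasSum_res hn hα).tsum_eq.symm) hφ
  set c := cs (fun _ => 1) φ with hcdef
  have hcpos : 0 < c := by
    rw [hcdef, cs, setIntegral_pos_iff_support_of_nonneg_ae
      (Eventually.of_forall fun s => mul_nonneg (exp_pos _).le (mul_nonneg (hφ0 _) zero_le_one))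
      (cs_int one_m one_b hφ)]
    have ho : IsOpen (Function.support fun s : ℝ => exp (-s) * (φ (exp (-s)) * 1)) :=
      Continuous.isOpen_support (by fun_prop)
    refine (ho.inter isOpen_Ioi).measure_pos volume ?_
    have hcl : t ∈ closure (Ioi (0 : ℝ)) := by rw [closure_Ioi]; exact ht
    refine mem_closure_iff.1 hcl _ ho ?_
    have : φ (exp (-t)) = r := by simp [φ, hr.le]
    simp only [Function.mem_support, this]
    positivity
  have bC : |cs g φ - g t * c| ≤ ε * c := by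
    rw [hcdef, cs, cs, ← integral_const_mul, ← integral_const_mul,
      ← integral_sub (cs_int hgm hg hφ) ((cs_int one_m one_b hφ).const_mul _)]
    rw [← Real.norm_eq_abs]
    refine norm_integral_le_of_norm_le ((cs_int one_m one_b hφ).const_mul ε) ?_
    filter_upwards [ae_restrict_mem measurableSet_Ioi] with s hs
    have e : exp (-s) * (φ (exp (-s)) * g s) - g t * (exp (-s) * (φ (exp (-s)) * 1)) =
        (g s - g t) * (exp (-s) * (φ (exp (-s)) * 1)) := by ring
    have hn : 0 ≤ exp (-s) * (φ (exp (-s)) * 1) :=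
      mul_nonneg (exp_pos _).le (mul_nonneg (hφ0 _) zero_le_one)
    rw [e, Real.norm_eq_abs, abs_mul, abs_of_nonneg hn]
    by_cases h0 : φ (exp (-s)) = 0
    · simp [h0]
    · exact mul_le_mul_of_nonneg_right (h2 hs ((hsup s h0).trans_le (min_le_right _ _))).le hn
  have e1 := Metric.tendsto_nhds.1 tA (ε * c) (by positivity)
  have e2 := Metric.tendsto_nhds.1 tD (min (c / 2) (ε * c / (|g t| + 1))) (by positivity)
  have e3 : ∀ᶠ n in atTop, 1 / m n ≤ δ1 / 2 :=
    (tendsto_const_nhds.div_atTop hm).eventually (ge_mem_nhds (by positivity))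
  filter_upwards [hpos, ha, h1, e1, e2, e3] with n hn han h1n e1n e2n e3n
  set d := ds (m n) (fun _ => 1) φ with hd
  have s1 := ds_summable hn han hφ
  have s2 := ds_summable (a := fun _ => 1) (C := 1) hn (fun j => by simp) hφ
  have bD : |ds (m n) (a n) φ - b n * d| ≤ ε * d := by
    rw [hd, ds, ds, ← tsum_mul_left, ← tsum_mul_left, ← s1.tsum_sub (s2.mul_left _)]
    rw [← Real.norm_eq_abs]
    refine tsum_of_norm_bounded (s2.mul_left ε).hasSum fun j => ?_
    have e : 1 / m n * nd (m n) j * (φ (nd (m n) j) * a n j) -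
        b n * (1 / m n * nd (m n) j * (φ (nd (m n) j) * 1)) =
        (a n j - b n) * (1 / m n * nd (m n) j * (φ (nd (m n) j) * 1)) := by ring
    have hnn : 0 ≤ 1 / m n * nd (m n) j * (φ (nd (m n) j) * 1) :=
      mul_nonneg (mul_nonneg (by positivity) (nd_mem hn j).1) (mul_nonneg (hφ0 _) zero_le_one)
    rw [e, Real.norm_eq_abs, abs_mul, abs_of_nonneg hnn]
    by_cases h0 : φ (nd (m n) j) = 0
    · simp [h0]
    · refine mul_le_mul_of_nonneg_right (h1n j ?_) hnn
      have h5 := (hsup _ h0).trans_le (min_le_left _ _)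
      have h6 : 0 < 1 / m n := by positivity
      rw [add_div] at h5
      rw [abs_lt] at h5
      rw [abs_le]
      constructor <;> linarith [h5.1, h5.2]
  rw [Real.dist_eq] at e1n e2n ⊢
  have f1 : |d - c| < c / 2 := e2n.trans_le (min_le_left _ _)
  have f2 : |g t * (c - d)| ≤ ε * c := by
    have f3 : |d - c| < ε * c / (|g t| + 1) := e2n.trans_le (min_le_right _ _)
    rw [lt_div_iff₀ (by positivity)] at f3
    rw [abs_mul, abs_sub_comm]
    nlinarith [abs_nonneg (d - c)]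
  have hdc : c / 2 < d := by linarith [(abs_lt.1 f1).1]
  have f4 : |b n - g t| * d ≤ ε * d + 3 * (ε * c) := by
    rw [← abs_of_pos (show 0 < d by linarith), ← abs_mul, abs_of_pos (show 0 < d by linarith)]
    have e : (b n - g t) * d = -(ds (m n) (a n) φ - b n * d) + (ds (m n) (a n) φ - cs g φ) +
        (cs g φ - g t * c) + g t * (c - d) := by ring
    rw [e, abs_le]
    rw [abs_le] at bD bC f2
    rw [abs_lt] at e1n
    constructor <;> linarith [bD.1, bD.2, bC.1, bC.2, f2.1, f2.2, e1n.1, e1n.2]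
  by_contra hcon
  have f5 : 8 * ε ≤ |b n - g t| := hε8 ▸ not_lt.1 hcon
  nlinarith [mul_le_mul_of_nonneg_right f5 (show 0 ≤ d by linarith), mul_pos hε hcpos,
    mul_lt_mul_of_pos_left hdc hε]

/-- The form with all positive parameters and equicontinuity on bounded time ranges. -/
theorem laplace_inv {a : ℕ → ℕ → ℝ} {m : ℕ → ℝ} {g : ℝ → ℝ} {C : ℝ}
    (hm : Tendsto m atTop atTop) (ha : ∀ᶠ n in atTop, ∀ j, |a n j| ≤ C)
    (hgc : ContinuousOn g (Ici 0)) (hg : ∀ s, 0 ≤ s → |g s| ≤ C)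
    (hL : ∀ α : ℝ, 0 < α → Tendsto
      (fun n => ∑' j : ℕ, 1 / m n * ((1 + α / m n)⁻¹) ^ (j + 1) * a n j) atTop
      (𝓝 (∫ s in Ioi (0 : ℝ), exp (-(α * s)) * g s)))
    (heq : ∀ T : ℝ, ∀ ε > 0, ∃ δ > 0, ∀ᶠ n in atTop, ∀ j k : ℕ, j ≤ T * m n → k ≤ T * m n →
      |(j : ℝ) - k| ≤ δ * m n → |a n j - a n k| ≤ ε)
    {t : ℝ} (ht : 0 ≤ t) {k : ℕ → ℕ} (hk : Tendsto (fun n => k n / m n) atTop (𝓝 t)) :
    Tendsto (fun n => a n (k n)) atTop (𝓝 (g t)) := by
  refine laplace_point hm ha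
    ((hgc.mono Ioi_subset_Ici_self).aestronglyMeasurable measurableSet_Ioi)
    (fun s hs => hg s (le_of_lt hs)) (fun i => hL _ (by positivity)) ht
    ((hgc t ht).mono Ioi_subset_Ici_self) ?_
  intro ε hε
  obtain ⟨δ, hδ, h⟩ := heq (t + 1) ε hε
  refine ⟨min (δ / 2) 1, by positivity, ?_⟩
  filter_upwards [h, hm.eventually (eventually_gt_atTop 0),
    Metric.tendsto_nhds.1 hk (min (δ / 2) 1) (by positivity)] with n h1 h2 h3 j hj
  rw [Real.dist_eq] at h3
  have a1 := abs_le.1 (hj.trans (min_le_left _ _))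
  have a2 := abs_le.1 (hj.trans (min_le_right _ _))
  have a3 := abs_lt.1 (h3.trans_le (min_le_left _ _))
  have a4 := abs_lt.1 (h3.trans_le (min_le_right _ _))
  refine h1 j (k n) ?_ ?_ ?_
  · rw [← div_le_iff₀ h2]
    linarith [a2.2]
  · rw [← div_le_iff₀ h2]
    linarith [a4.2]
  · rw [← div_le_iff₀ h2, ← abs_of_pos h2, ← abs_div, sub_div, abs_le]
    constructor <;> linarith [a1.1, a1.2, a3.1, a3.2]

/-- The integer parts `⌊t m⌋` are admissible indices. -/
theorem tendsto_floor_div {m : ℕ → ℝ} (hm : Tendsto m atTop atTop) {t : ℝ} (ht : 0 ≤ t) :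
    Tendsto (fun n => (⌊t * m n⌋₊ : ℝ) / m n) atTop (𝓝 t) :=
  (tendsto_nat_floor_mul_div_atTop ht).comp hm

end Pool.Agent.Lib.MP_0d9445_pr.Lim
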