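import Pool.Agent.Lib.MP_0d9445_pr.Lim.Laplace

/-!
Two scalar lemmas on resolvent equations and a version lemma for continuous processes.
-/

set_option autoImplicit false

namespace Pool.Agent.Lib.MP_0d9445_pr.Lim

open Filter Topology MeasureTheory Set Real

/-- The bounded solution of the continuous resolvent equation. -/
theorem ode_laplace {ψ a : ℝ → ℝ} {α C : ℝ} (hα : 0 < α) (hψ : Continuous ψ) (ha : Continuous a)
    (hψC : ∀ t, |ψ t| ≤ C) (haC : ∀ t, |a t| ≤ C)
    (h : ∀ t, 0 ≤ t → ψ t - ψ 0 + ∫ r in (0 : ℝ)..t, (a r - α * ψ r) = 0) :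
    ψ 0 = ∫ t in Ioi (0 : ℝ), exp (-(α * t)) * a t := by
  have hc : Continuous fun r => a r - α * ψ r := by fun_prop
  let Ψ : ℝ → ℝ := fun t => ψ 0 - ∫ r in (0 : ℝ)..t, (a r - α * ψ r)
  have hΨ : ∀ t, 0 ≤ t → Ψ t = ψ t := fun t ht => by
    have := h t ht
    simp only [Ψ]
    linarith
  have hd : ∀ t ∈ Ici (0 : ℝ),
      HasDerivAt (fun t => -(exp (-(α * t)) * Ψ t)) (exp (-(α * t)) * a t) t := by
    intro t ht
    have d1 : HasDerivAt Ψ (-(a t - α * ψ t)) t :=
      (hc.integral_hasStrictDerivAt 0 t).hasDerivAt.const_sub _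
    have d2 : HasDerivAt (fun t => exp (-(α * t))) (exp (-(α * t)) * -(α * 1)) t :=
      ((hasDerivAt_id t).const_mul α).neg.exp
    have d3 := (d2.mul d1).neg
    rw [hΨ t ht] at d3
    exact d3.congr_deriv (by ring)
  have hi : IntegrableOn (fun t => exp (-(α * t)) * a t) (Ioi 0) := by
    refine Integrable.mono' ((integrableOn_exp_mul_Ioi (a := -α) (by linarith) 0).mul_const C)
      (by fun_prop : Continuous fun t => exp (-(α * t)) * a t).aestronglyMeasurable
      (Eventually.of_forall fun t => ?_)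
    rw [Real.norm_eq_abs, abs_mul, abs_of_pos (exp_pos _), neg_mul]
    exact mul_le_mul_of_nonneg_left (haC t) (exp_pos _).le
  have hl : Tendsto (fun t => -(exp (-(α * t)) * Ψ t)) atTop (𝓝 0) := by
    have h0 : Tendsto (fun t => exp (-(α * t)) * C) atTop (𝓝 0) := by
      simpa using (tendsto_exp_neg_atTop_nhds_zero.comp
        (tendsto_id.const_mul_atTop hα)).mul_const C
    refine squeeze_zero_norm' ?_ h0
    filter_upwards [eventually_ge_atTop 0] with t ht
    rw [norm_neg, Real.norm_eq_abs, abs_mul, abs_of_pos (exp_pos _), hΨ t ht]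
    exact mul_le_mul_of_nonneg_left (hψC t) (exp_pos _).le
  rw [integral_Ioi_of_hasDerivAt_of_tendsto' hd hi hl, hΨ 0 le_rfl]
  simp

/-- The bounded solution of the discrete resolvent equation. -/
theorem rec_laplace {v a : ℕ → ℝ} {α m C : ℝ} (hα : 0 < α) (hm : 0 < m) (hv : ∀ j, |v j| ≤ C)
    (ha : ∀ j, |a j| ≤ C) (h : ∀ j, (1 + α / m) * v j = v (j + 1) + a j / m) :
    v 0 = ∑' j : ℕ, 1 / m * ((1 + α / m)⁻¹) ^ (j + 1) * a j := by
  have hx : 0 < α / m := div_pos hα hm
  have hr : (1 + α / m)⁻¹ < 1 := inv_lt_one_of_one_lt₀ (by linarith)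
  have hs := (LapAux.wsum (fun j => by positivity) (LapAux.hasSum_res hm hα) ha).1
  have hp : ∀ N, ∑ j ∈ Finset.range N, 1 / m * ((1 + α / m)⁻¹) ^ (j + 1) * a j =
      v 0 - ((1 + α / m)⁻¹) ^ N * v N := by
    intro N
    induction N with
    | zero => simp
    | succ N ih =>
      rw [Finset.sum_range_succ, ih]
      have h1 : v N = (1 + α / m)⁻¹ * (v (N + 1) + a N / m) := by
        rw [← h N, inv_mul_cancel_left₀ (by positivity)]
      rw [h1]
      ring
  have h0 : Tendsto (fun N : ℕ => ((1 + α / m)⁻¹) ^ N * v N) atTop (𝓝 0) := by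
    have h1 : Tendsto (fun N : ℕ => ((1 + α / m)⁻¹) ^ N * C) atTop (𝓝 0) := by
      simpa using (tendsto_pow_atTop_nhds_zero_of_lt_one (by positivity) hr).mul_const C
    refine squeeze_zero_norm (fun N => ?_) h1
    rw [Real.norm_eq_abs, abs_mul, abs_of_nonneg (by positivity)]
    exact mul_le_mul_of_nonneg_left (hv N) (by positivity)
  have h2 := hs.hasSum.tendsto_sum_nat
  simp only [hp] at h2
  have h3 : Tendsto (fun N : ℕ => v 0 - ((1 + α / m)⁻¹) ^ N * v N) atTop (𝓝 (v 0)) := by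
    simpa using (tendsto_const_nhds (x := v 0)).sub h0
  exact tendsto_nhds_unique h3 h2

variable {E Ω : Type*} [MetricSpace E] [ProperSpace E] [MeasurableSpace E] [BorelSpace E]
  [MeasurableSpace Ω] {P : Measure Ω}

omit [ProperSpace E] [BorelSpace E] in
/-- A version with paths that are continuous on the whole line. -/
theorem exists_version [Nonempty E] {Y : Ω → ℝ → E} (hc : ∀ᵐ ω ∂P, ContinuousOn (Y ω) (Ici 0))
    (hm : ∀ t, 0 ≤ t → AEMeasurable (fun ω => Y ω t) P) :
    ∃ Z : Ω → C(ℝ, E), (∀ t, AEMeasurable (fun ω => Z ω t) P) ∧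
      ∀ᵐ ω ∂P, ∀ t, 0 ≤ t → Z ω t = Y ω t := by
  classical
  let Z : Ω → C(ℝ, E) := fun ω =>
    if h : ContinuousOn (Y ω) (Ici 0) then
      ⟨fun t => Y ω (max t 0), h.comp_continuous (by fun_prop) fun t => mem_Ici.2 (le_max_right _ _)⟩
    else ContinuousMap.const _ (Classical.arbitrary E)
  have hZ : ∀ᵐ ω ∂P, ∀ t, Z ω t = Y ω (max t 0) := by
    filter_upwards [hc] with ω h t
    simp only [Z, dif_pos h, ContinuousMap.coe_mk]
  refine ⟨Z, fun t => (hm _ (le_max_right t 0)).congr ?_, ?_⟩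
  · filter_upwards [hZ] with ω h
    exact (h t).symm
  · filter_upwards [hZ] with ω h t ht
    rw [h t, max_eq_left ht]

/-- Expectation and time integral commute. -/
theorem swap_time [IsProbabilityMeasure P] {Z : Ω → C(ℝ, E)}
    (hZ : ∀ t, AEMeasurable (fun ω => Z ω t) P) {G : Ω → ℝ} (hG : AEMeasurable G P) {C : ℝ}
    (hGC : ∀ ω, |G ω| ≤ C) {φ : E → ℝ} (hφ : Continuous φ) {B : ℝ} (hB : ∀ x, |φ x| ≤ B)
    {s t : ℝ} (hst : s ≤ t) :
    Integrable (fun ω => G ω * ∫ r in s..t, φ (Z ω r)) P ∧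
      ∫ ω, G ω * (∫ r in s..t, φ (Z ω r)) ∂P = ∫ r in s..t, ∫ ω, G ω * φ (Z ω r) ∂P := by
  let _ : MeasurableSpace C(ℝ, E) := borel _
  have : BorelSpace C(ℝ, E) := ⟨rfl⟩
  have he : MeasurableEmbedding
      fun (w : C(ℝ, E)) (n : ℕ) => w (TopologicalSpace.denseSeq ℝ n) := by
    refine Continuous.measurableEmbedding (by fun_prop) ?_
    intro w w' h
    refine ContinuousMap.ext fun t => ?_
    have := (TopologicalSpace.denseRange_denseSeq ℝ).equalizer w.continuous w'.continuous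
      (funext fun n => congrFun h n)
    exact congrFun this t
  have hZ' : AEMeasurable Z P := by
    rw [← he.aemeasurable_comp_iff]
    exact aemeasurable_pi_lambda _ fun n => hZ _
  have hi : Integrable (Function.uncurry fun ω r => G ω * φ (Z ω r))
      (P.prod (volume.restrict (Ioc s t))) := by
    refine Integrable.of_bound (C := C * B) ?_ (Eventually.of_forall fun p => ?_)
    · have h1 : Measurable fun p : C(ℝ, E) × ℝ => φ (p.1 p.2) :=
        (hφ.comp continuous_eval).measurable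
      exact (hG.comp_fst.mul (h1.comp_aemeasurable
        (hZ'.comp_fst.prodMk measurable_snd.aemeasurable))).aestronglyMeasurable
    · rw [Real.norm_eq_abs, Function.uncurry, abs_mul]
      exact mul_le_mul (hGC _) (hB _) (abs_nonneg _) ((abs_nonneg _).trans (hGC p.1))
  simp only [intervalIntegral.integral_of_le hst, ← integral_const_mul]
  exact ⟨hi.integral_prod_left, integral_integral_swap hi⟩

omit [ProperSpace E] in
lemma integrable_time [IsProbabilityMeasure P] {Z : Ω → C(ℝ, E)}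
    (hZ : ∀ t, AEMeasurable (fun ω => Z ω t) P) {G : Ω → ℝ} (hG : AEMeasurable G P) {C : ℝ}
    (hGC : ∀ ω, |G ω| ≤ C) {φ : E → ℝ} (hφ : Continuous φ) {B : ℝ} (hB : ∀ x, |φ x| ≤ B)
    (t : ℝ) : Integrable (fun ω => G ω * φ (Z ω t)) P ∧ |∫ ω, G ω * φ (Z ω t) ∂P| ≤ C * B := by
  have hb : ∀ᵐ ω ∂P, ‖G ω * φ (Z ω t)‖ ≤ C * B := Eventually.of_forall fun ω => by
    rw [Real.norm_eq_abs, abs_mul]
    exact mul_le_mul (hGC _) (hB _) (abs_nonneg _) ((abs_nonneg _).trans (hGC ω))
  refine ⟨Integrable.of_bound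
    (hG.mul (hφ.measurable.comp_aemeasurable (hZ t))).aestronglyMeasurable _ hb, ?_⟩
  simpa using norm_integral_le_of_norm_le_const hb

omit [ProperSpace E] in
lemma continuous_time [IsProbabilityMeasure P] {Z : Ω → C(ℝ, E)}
    (hZ : ∀ t, AEMeasurable (fun ω => Z ω t) P) {G : Ω → ℝ} (hG : AEMeasurable G P) {C : ℝ}
    (hGC : ∀ ω, |G ω| ≤ C) {φ : E → ℝ} (hφ : Continuous φ) {B : ℝ} (hB : ∀ x, |φ x| ≤ B) :
    Continuous fun t => ∫ ω, G ω * φ (Z ω t) ∂P := by
  refine continuous_of_dominated (bound := fun _ => C * B)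
    (fun t => (integrable_time hZ hG hGC hφ hB t).1.aestronglyMeasurable)
    (fun t => Eventually.of_forall fun ω => ?_) (integrable_const _)
    (Eventually.of_forall fun ω => by fun_prop)
  rw [Real.norm_eq_abs, abs_mul]
  exact mul_le_mul (hGC _) (hB _) (abs_nonneg _) ((abs_nonneg _).trans (hGC ω))

/-- The martingale identity gives the Laplace transform. -/
theorem mp_laplace [IsProbabilityMeasure P] {Z : Ω → C(ℝ, E)}
    (hZ : ∀ t, AEMeasurable (fun ω => Z ω t) P) {G : Ω → ℝ} (hG : AEMeasurable G P) {C : ℝ}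
    (hGC : ∀ ω, |G ω| ≤ C) {u f : E → ℝ} (hu : Continuous u) (hf : Continuous f) {B : ℝ}
    (huB : ∀ x, |u x| ≤ B) (hfB : ∀ x, |f x| ≤ B) {α s : ℝ} (hα : 0 < α)
    (h : ∀ t, s ≤ t → ∫ ω, G ω * (u (Z ω t) - u (Z ω s) +
      ∫ r in s..t, (f (Z ω r) - α * u (Z ω r))) ∂P = 0) :
    ∫ ω, G ω * u (Z ω s) ∂P =
      ∫ t in Ioi (0 : ℝ), exp (-(α * t)) * ∫ ω, G ω * f (Z ω (s + t)) ∂P := by
  have key := ode_laplace (ψ := fun t => ∫ ω, G ω * u (Z ω (s + t)) ∂P)
    (a := fun t => ∫ ω, G ω * f (Z ω (s + t)) ∂P) (C := C * B) hα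
    ((continuous_time hZ hG hGC hu huB).comp (continuous_const_add s))
    ((continuous_time hZ hG hGC hf hfB).comp (continuous_const_add s))
    (fun t => (integrable_time hZ hG hGC hu huB _).2)
    (fun t => (integrable_time hZ hG hGC hf hfB _).2) ?_
  · simpa using key
  intro t ht
  have hφ : Continuous fun x => f x - α * u x := by fun_prop
  have hφB : ∀ x, |f x - α * u x| ≤ B + α * B := fun x => (abs_sub _ _).trans (by
    rw [abs_mul, abs_of_pos hα]
    exact add_le_add (hfB x) (mul_le_mul_of_nonneg_left (huB x) hα.le))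
  have hst : s ≤ s + t := by linarith
  obtain ⟨i1, e1⟩ := swap_time hZ hG hGC hφ hφB hst
  have i2 := fun r => (integrable_time hZ hG hGC hu huB r).1
  have i3 := fun r => (integrable_time hZ hG hGC hf hfB r).1
  have h1 := h (s + t) hst
  simp only [mul_add, mul_sub (G _) (u _)] at h1
  have i4 : Integrable (fun ω => G ω * u (Z ω (s + t)) - G ω * u (Z ω s)) P := (i2 _).sub (i2 _)
  rw [integral_add i4 i1, integral_sub (i2 _) (i2 _), e1] at h1
  have e2 : ∀ r, ∫ ω, G ω * (f (Z ω r) - α * u (Z ω r)) ∂P =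
      ∫ ω, G ω * f (Z ω r) ∂P - α * ∫ ω, G ω * u (Z ω r) ∂P := by
    intro r
    rw [← integral_const_mul, ← integral_sub (i3 r) ((i2 r).const_mul α)]
    exact integral_congr_ae (Eventually.of_forall fun ω => by ring)
  simp only [e2] at h1
  rw [intervalIntegral.integral_comp_add_left (fun r =>
    ∫ ω, G ω * f (Z ω r) ∂P - α * ∫ ω, G ω * u (Z ω r) ∂P) s]
  simpa using h1

end Pool.Agent.Lib.MP_0d9445_pr.Lim
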