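import Mathlib

/-!
Weak convergence on path space from finite dimensional convergence and a modulus bound.
-/

set_option autoImplicit false

namespace Pool.Agent.Lib.MP_0d9445_pr.Lim

open Filter Topology MeasureTheory Set Metric

/-- A normalised positive linear functional on all real functions. -/
structure IsAvg {X : Type*} (E : (X → ℝ) → ℝ) : Prop where
  add : ∀ F G : X → ℝ, E (fun w => F w + G w) = E F + E G
  smul : ∀ (c : ℝ) (F : X → ℝ), E (fun w => c * F w) = c * E F
  mono : ∀ F G : X → ℝ, (∀ w, F w ≤ G w) → E F ≤ E G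
  one : E (fun _ => 1) = 1

namespace IsAvg

variable {X : Type*} {E : (X → ℝ) → ℝ}

lemma const (h : IsAvg E) (c : ℝ) : E (fun _ => c) = c := by
  have := h.smul c fun _ => 1
  simpa [h.one] using this

lemma sub (h : IsAvg E) (F G : X → ℝ) : E (fun w => F w - G w) = E F - E G := by
  have h1 := h.add F fun w => -1 * G w
  rw [h.smul] at h1
  simpa [sub_eq_add_neg] using h1

lemma neg (h : IsAvg E) (F : X → ℝ) : E (fun w => -F w) = -E F := by
  simpa using h.smul (-1) F

lemma comp {Y : Type*} (h : IsAvg E) (φ : X → Y) : IsAvg fun F : Y → ℝ => E fun w => F (φ w) :=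
  ⟨fun _ _ => h.add _ _, fun _ _ => h.smul _ _, fun _ _ hh => h.mono _ _ fun _ => hh _, h.one⟩

end IsAvg

/-- Test functions: Lipschitz with compact support. -/
def Tst {E : Type*} [MetricSpace E] (f : E → ℝ) : Prop :=
  (∃ K, LipschitzWith K f) ∧ HasCompactSupport f

/-- Paths with an oscillation larger than `η` at a time distance at most `δ`. -/
def Bad (I E : Type*) [MetricSpace I] [MetricSpace E] (δ η : ℝ) : Set C(I, E) :=
  {w | ∃ s t, dist s t ≤ δ ∧ η < dist (w s) (w t)}

namespace WeakAux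

variable {E : Type*} [MetricSpace E]

/-- Bounded Lipschitz functions. -/
def BL (f : E → ℝ) : Prop :=
  ∃ K B : ℝ, 0 ≤ K ∧ (∀ x y, |f x - f y| ≤ K * dist x y) ∧ ∀ x, |f x| ≤ B

lemma BL.lip {f : E → ℝ} (h : BL f) : ∃ K, LipschitzWith K f := by
  obtain ⟨K, _, _, h1, _⟩ := h
  exact ⟨_, LipschitzWith.of_dist_le' (K := K) h1⟩

lemma BL.cont {f : E → ℝ} (h : BL f) : Continuous f := h.lip.choose_spec.continuous

lemma BL.one : BL fun _ : E => (1 : ℝ) := ⟨0, 1, le_rfl, by simp, by simp⟩

lemma BL.mul {f g : E → ℝ} (hf : BL f) (hg : BL g) : BL fun x => f x * g x := by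
  obtain ⟨K, B, hK, h1, h2⟩ := hf
  obtain ⟨K', B', hK', h1', h2'⟩ := hg
  refine ⟨|B| * K' + |B'| * K, B * B', by positivity, fun x y => ?_, fun x => ?_⟩
  · have e : f x * g x - f y * g y = f x * (g x - g y) + g y * (f x - f y) := by ring
    rw [e]
    refine (abs_add_le _ _).trans ?_
    rw [abs_mul, abs_mul]
    have a1 := mul_le_mul ((h2 x).trans (le_abs_self B)) (h1' x y) (abs_nonneg _) (abs_nonneg _)
    have a2 := mul_le_mul ((h2' y).trans (le_abs_self B')) (h1 x y) (abs_nonneg _) (abs_nonneg _)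
    linarith
  · rw [abs_mul]
    exact mul_le_mul (h2 x) (h2' x) (abs_nonneg _) ((abs_nonneg _).trans (h2 x))

lemma BL_min (c : E) : BL fun x => min (dist x c) 1 := by
  refine ⟨1, 1, zero_le_one, fun x y => ?_, fun x => ?_⟩
  · refine (abs_min_sub_min_le_max _ _ _ _).trans ?_
    simp only [sub_self, abs_zero, one_mul]
    exact max_le (abs_dist_sub_le _ _ _) dist_nonneg
  · rw [abs_of_nonneg (le_min dist_nonneg zero_le_one)]
    exact min_le_right _ _

/-- The cut-off. -/
noncomputable def cut (c : E) (R : ℝ) (x : E) : ℝ := max 0 (min 1 (R + 1 - dist x c))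

lemma cut_mem (c : E) (R : ℝ) (x : E) : 0 ≤ cut c R x ∧ cut c R x ≤ 1 :=
  ⟨le_max_left _ _, max_le zero_le_one (min_le_left _ _)⟩

lemma cut_zero {c : E} {R : ℝ} {x : E} (h : x ∉ closedBall c (R + 1)) : cut c R x = 0 := by
  rw [mem_closedBall, not_le] at h
  exact max_eq_left ((min_le_right _ _).trans (by linarith))

lemma cut_one {c : E} {R : ℝ} {x : E} (h : dist x c ≤ R) : cut c R x = 1 := by
  rw [cut, min_eq_left (by linarith), max_eq_right zero_le_one]

lemma BL_cut (c : E) (R : ℝ) : BL (cut c R) := by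
  refine ⟨1, 1, zero_le_one, fun x y => ?_, fun x => ?_⟩
  · refine (abs_max_sub_max_le_max _ _ _ _).trans ?_
    simp only [sub_self, abs_zero, one_mul]
    refine max_le dist_nonneg ((abs_min_sub_min_le_max _ _ _ _).trans ?_)
    simp only [sub_self, abs_zero]
    refine max_le dist_nonneg ?_
    have e : R + 1 - dist x c - (R + 1 - dist y c) = dist y c - dist x c := by ring
    rw [e, dist_comm x y]
    exact abs_dist_sub_le _ _ _
  · rw [abs_of_nonneg (cut_mem c R x).1]
    exact (cut_mem c R x).2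

/-- The product cut-off. -/
noncomputable def chi {k : ℕ} (c : E) (R : ℝ) (z : Fin k → E) : ℝ := ∏ i, cut c R (z i)

lemma chi_mem {k : ℕ} (c : E) (R : ℝ) (z : Fin k → E) : 0 ≤ chi c R z ∧ chi c R z ≤ 1 :=
  ⟨Finset.prod_nonneg fun _ _ => (cut_mem _ _ _).1,
    Finset.prod_le_one (fun _ _ => (cut_mem _ _ _).1) fun _ _ => (cut_mem _ _ _).2⟩

lemma chi_cont {k : ℕ} (c : E) (R : ℝ) : Continuous (chi (k := k) c R) :=
  continuous_finsetProd _ fun i _ => (BL_cut c R).cont.comp (continuous_apply i)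

lemma chi_zero {k : ℕ} {c : E} {R : ℝ} {z : Fin k → E}
    (h : z ∉ Set.pi univ fun _ => closedBall c (R + 1)) : chi c R z = 0 := by
  rw [Set.mem_univ_pi, not_forall] at h
  obtain ⟨i, hi⟩ := h
  exact Finset.prod_eq_zero (Finset.mem_univ i) (cut_zero hi)

/-- Products of bounded Lipschitz functions of the coordinates. -/
def prods (E : Type*) [MetricSpace E] (k : ℕ) : Submonoid C(Fin k → E, ℝ) where
  carrier := {g | ∃ f : Fin k → E → ℝ, (∀ i, BL (f i)) ∧ ∀ z, g z = ∏ i, f i (z i)}
  one_mem' := ⟨fun _ _ => 1, fun _ => BL.one, fun z => by simp⟩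
  mul_mem' := by
    rintro g g' ⟨f, hf, h⟩ ⟨f', hf', h'⟩
    refine ⟨fun i x => f i x * f' i x, fun i => (hf i).mul (hf' i), fun z => ?_⟩
    rw [ContinuousMap.mul_apply, h, h', Finset.prod_mul_distrib]

lemma sep (k : ℕ) :
    (Algebra.adjoin ℝ (prods E k : Set C(Fin k → E, ℝ))).SeparatesPoints := by
  intro z z' hz
  obtain ⟨i, hi⟩ := Function.ne_iff.1 hz
  let g : C(Fin k → E, ℝ) := ⟨fun y => min (dist (y i) (z i)) 1, by fun_prop⟩
  refine ⟨g, ⟨g, Algebra.subset_adjoin ?_, rfl⟩, ?_⟩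
  · refine ⟨fun j x => if j = i then min (dist x (z i)) 1 else 1, fun j => ?_, fun y => ?_⟩
    · by_cases h : j = i
      · simpa only [h, if_true] using BL_min (z i)
      · simpa only [h, if_false] using BL.one
    · simp [g]
  · have : 0 < min (dist (z' i) (z i)) 1 := lt_min (dist_pos.2 hi.symm) one_pos
    simp only [g, ContinuousMap.coe_mk, dist_self, min_eq_left (zero_le_one' ℝ)]
    exact this.ne

/-- Infimal convolution along a map. -/
noncomputable def ic {X Z : Type*} [PseudoMetricSpace Z] (S : Set X) (φ : X → Z) (F : X → ℝ)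
    (L : ℝ) (z : Z) : ℝ := ⨅ w : S, (F w + L * dist z (φ w))

section

variable {X Z : Type*} [PseudoMetricSpace Z] {S : Set X} {φ : X → Z} {F : X → ℝ} {L B : ℝ}

lemma ic_le (hL : 0 ≤ L) (hB : ∀ w, |F w| ≤ B) (z : Z) {w : X} (hw : w ∈ S) :
    ic S φ F L z ≤ F w + L * dist z (φ w) := by
  refine ciInf_le (f := fun w : S => F w + L * dist z (φ w)) ⟨-B, ?_⟩ ⟨w, hw⟩
  rintro _ ⟨v, rfl⟩
  have := (abs_le.1 (hB v)).1
  have : 0 ≤ L * dist z (φ v) := by positivity
  linarith

lemma le_ic (hS : S.Nonempty) {z : Z} {a : ℝ} (h : ∀ w ∈ S, a ≤ F w + L * dist z (φ w)) :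
    a ≤ ic S φ F L z := by
  have := hS.to_subtype
  exact le_ciInf fun w => h w w.2

lemma ic_lower (hS : S.Nonempty) (hL : 0 ≤ L) (hB : ∀ w, |F w| ≤ B) (z : Z) :
    -B ≤ ic S φ F L z := le_ic hS fun w _ => by
  have := (abs_le.1 (hB w)).1
  have : 0 ≤ L * dist z (φ w) := by positivity
  linarith

lemma ic_cont (hS : S.Nonempty) (hL : 0 ≤ L) (hB : ∀ w, |F w| ≤ B) :
    Continuous (ic S φ F L) := by
  refine (LipschitzWith.of_le_add_mul' L fun x y => ?_).continuous
  have : ic S φ F L x - L * dist x y ≤ ic S φ F L y := le_ic hS fun w hw => by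
    have h1 := ic_le (φ := φ) hL hB x hw
    have h2 := mul_le_mul_of_nonneg_left (dist_triangle x y (φ w)) hL
    linarith
  linarith

end

lemma ic_tendsto {X : Type*} [PseudoMetricSpace X] {F : X → ℝ} {B : ℝ} (hF : Continuous F)
    (hB : ∀ w, |F w| ≤ B) (w : X) :
    Tendsto (fun L : ℕ => ic univ id F L w) atTop (𝓝 (F w)) := by
  rw [Metric.tendsto_atTop]
  intro ε hε
  obtain ⟨δ, hδ, h⟩ := Metric.continuousAt_iff.1 (hF.continuousAt (x := w)) (ε / 2)
    (by positivity)
  obtain ⟨N, hN⟩ := exists_nat_ge (2 * B / δ)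
  refine ⟨N, fun n hn => ?_⟩
  have h1 := ic_le (S := univ) (φ := id) (Nat.cast_nonneg n) hB w (mem_univ w)
  have h2 : F w - ε / 2 ≤ ic univ id F n w := le_ic ⟨w, mem_univ w⟩ fun v _ => by
    have h0 : (0 : ℝ) ≤ n * dist w (id v) := by positivity
    by_cases hv : dist v w < δ
    · have := h hv
      rw [Real.dist_eq, abs_lt] at this
      linarith [this.1]
    · rw [div_le_iff₀ hδ] at hN
      have h3 : (N : ℝ) ≤ n := Nat.cast_le.2 hn
      have h4 : (N : ℝ) * δ ≤ n * dist w (id v) := by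
        rw [id, dist_comm]
        exact mul_le_mul h3 (not_lt.1 hv) hδ.le (Nat.cast_nonneg n)
      linarith [(abs_le.1 (hB v)).1, (abs_le.1 (hB w)).2]
  rw [Real.dist_eq, abs_lt]
  simp only [id, dist_self, mul_zero, add_zero] at h1
  constructor <;> linarith

end WeakAux

open WeakAux

/-- Convergence for products of test functions gives convergence for all bounded continuous
functions of finitely many coordinates. -/
theorem fdd_cont {E X Ω : Type*} [MetricSpace E] [ProperSpace E] [Nonempty E] [MeasurableSpace E]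
    [BorelSpace E] [MeasurableSpace Ω] (P : Measure Ω) [IsProbabilityMeasure P]
    {En : ℕ → (X → ℝ) → ℝ} (hE : ∀ᶠ n in atTop, IsAvg (En n)) {k : ℕ} (Zn : X → Fin k → E)
    {Z : Ω → Fin k → E} (hZ : AEMeasurable Z P)
    (hf : ∀ f : Fin k → E → ℝ, (∀ i, Tst (f i)) →
      Tendsto (fun n => En n fun w => ∏ i, f i (Zn w i)) atTop (𝓝 (∫ ω, ∏ i, f i (Z ω i) ∂P)))
    {G : (Fin k → E) → ℝ} (hG : Continuous G) {B : ℝ} (hB : ∀ z, |G z| ≤ B) :
    Tendsto (fun n => En n fun w => G (Zn w)) atTop (𝓝 (∫ ω, G (Z ω) ∂P)) := by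
  obtain ⟨c⟩ := ‹Nonempty E›
  have hB0 : 0 ≤ B := (abs_nonneg _).trans (hB fun _ => c)
  have hint : ∀ (g : (Fin k → E) → ℝ) (b : ℝ), Continuous g → (∀ z, |g z| ≤ b) →
      Integrable (fun ω => g (Z ω)) P := fun g b hg hb =>
    Integrable.of_bound (hg.measurable.comp_aemeasurable hZ).aestronglyMeasurable b
      (Eventually.of_forall fun ω => hb _)
  have hK : ∀ R : ℝ, IsCompact (Set.pi univ fun _ : Fin k => closedBall c (R + 1)) := fun R =>
    isCompact_univ_pi fun _ => isCompact_closedBall _ _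
  have hint2 : ∀ (R : ℝ) (g : C(Fin k → E, ℝ)),
      Integrable (fun ω => g (Z ω) * chi c R (Z ω)) P := by
    intro R g
    have hc : Continuous fun z => g z * chi c R z := g.continuous.mul (chi_cont c R)
    obtain ⟨b, hb⟩ := (hK R).exists_bound_of_continuousOn hc.continuousOn
    refine hint _ (max b 0) hc fun z => ?_
    by_cases hz : z ∈ Set.pi univ fun _ : Fin k => closedBall c (R + 1)
    · exact (hb z hz).trans (le_max_left _ _)
    · simp [chi_zero hz]
  have hA : ∀ (R : ℝ) (g : C(Fin k → E, ℝ)),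
      g ∈ Algebra.adjoin ℝ (prods E k : Set C(Fin k → E, ℝ)) →
      Tendsto (fun n => En n fun w => g (Zn w) * chi c R (Zn w)) atTop
        (𝓝 (∫ ω, g (Z ω) * chi c R (Z ω) ∂P)) := by
    intro R g hg
    rw [← Subalgebra.mem_toSubmodule, Algebra.adjoin_eq_span, Submonoid.closure_eq] at hg
    induction hg using Submodule.span_induction with
    | mem g hg =>
      obtain ⟨f, h1, h2⟩ := hg
      simp only [h2, chi, ← Finset.prod_mul_distrib]
      refine hf (fun i x => f i x * cut c R x) fun i => ⟨((h1 i).mul (BL_cut c R)).lip, ?_⟩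
      exact HasCompactSupport.intro (isCompact_closedBall c (R + 1)) fun x hx => by
        simp [cut_zero hx]
    | zero =>
      simp only [ContinuousMap.zero_apply, zero_mul, integral_zero]
      refine tendsto_const_nhds.congr' ?_
      filter_upwards [hE] with n hn
      exact (hn.const 0).symm
    | add g g' _ _ h1 h2 =>
      simp only [ContinuousMap.add_apply, add_mul]
      rw [integral_add (hint2 R g) (hint2 R g')]
      refine (h1.add h2).congr' ?_
      filter_upwards [hE] with n hn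
      exact (hn.add _ _).symm
    | smul a g _ h1 =>
      simp only [ContinuousMap.smul_apply, smul_eq_mul, mul_assoc]
      rw [integral_const_mul]
      refine (h1.const_mul a).congr' ?_
      filter_upwards [hE] with n hn
      exact (hn.smul _ _).symm
  have hchi : ∀ R : ℝ, Integrable (fun ω => chi c R (Z ω)) P := fun R =>
    hint _ 1 (chi_cont c R) fun z => by
      rw [abs_of_nonneg (chi_mem c R z).1]
      exact (chi_mem c R z).2
  have hlim : Tendsto (fun R : ℕ => ∫ ω, chi c R (Z ω) ∂P) atTop (𝓝 1) := by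
    have := tendsto_integral_of_dominated_convergence (μ := P)
      (F := fun (R : ℕ) ω => chi c R (Z ω)) (f := fun _ => (1 : ℝ)) (fun _ => 1)
      (fun R => (hchi R).aestronglyMeasurable) (integrable_const _)
      (fun R => Eventually.of_forall fun ω => by
        rw [Real.norm_eq_abs, abs_of_nonneg (chi_mem _ _ _).1]
        exact (chi_mem _ _ _).2)
      (Eventually.of_forall fun ω => by
        refine tendsto_const_nhds.congr' ?_
        filter_upwards [tendsto_natCast_atTop_atTop.eventually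
          (eventually_ge_atTop (dist (Z ω) fun _ => c))] with R hR
        exact (Finset.prod_eq_one fun i _ =>
          cut_one ((dist_le_pi_dist (Z ω) (fun _ => c) i).trans hR)).symm)
    simpa using this
  rw [Metric.tendsto_nhds]
  intro ε0 hε0
  obtain ⟨ε, hε, hεe⟩ : ∃ ε > 0, (3 * B + 3) * ε = ε0 :=
    ⟨ε0 / (3 * B + 3), by positivity, by field_simp⟩
  obtain ⟨R, hR⟩ := (Metric.tendsto_nhds.1 hlim ε hε).exists
  obtain ⟨g, hg, hgG⟩ :=
    ContinuousMap.exists_mem_subalgebra_near_continuous_of_isCompact_of_separatesPoints (sep k)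
      ⟨G, hG⟩ (hK R) hε
  have hpt : ∀ z, |G z - g z * chi c R z| ≤ B * (1 - chi c R z) + ε := by
    intro z
    obtain ⟨a1, a2⟩ := chi_mem c R z
    have e : G z - g z * chi c R z = G z * (1 - chi c R z) - (g z - G z) * chi c R z := by ring
    rw [e]
    refine (abs_sub _ _).trans (add_le_add ?_ ?_)
    · rw [abs_mul, abs_of_nonneg (sub_nonneg.2 a2)]
      exact mul_le_mul_of_nonneg_right (hB z) (sub_nonneg.2 a2)
    · by_cases hz : z ∈ Set.pi univ fun _ : Fin k => closedBall c (R + 1)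
      · rw [abs_mul, abs_of_nonneg a1]
        have a3 : |g z - G z| < ε := hgG z hz
        nlinarith [abs_nonneg (g z - G z)]
      · simp [chi_zero hz, hε.le]
  have b1 : |∫ ω, G (Z ω) ∂P - ∫ ω, g (Z ω) * chi c R (Z ω) ∂P| ≤
      B * (1 - ∫ ω, chi c R (Z ω) ∂P) + ε := by
    rw [← integral_sub (hint G B hG hB) (hint2 R g), ← Real.norm_eq_abs]
    have i1 : Integrable (fun ω => 1 - chi c R (Z ω)) P := (integrable_const _).sub (hchi R)
    refine (norm_integral_le_of_norm_le ((i1.const_mul B).add (integrable_const ε))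
      (Eventually.of_forall fun ω => hpt _)).trans (le_of_eq ?_)
    rw [integral_add' (i1.const_mul B) (integrable_const ε), integral_const_mul,
      integral_sub (integrable_const _) (hchi R)]
    simp
  have t1 := hA R 1 (Subalgebra.one_mem _)
  simp only [ContinuousMap.one_apply, one_mul] at t1
  filter_upwards [hE, Metric.tendsto_nhds.1 t1 ε hε, Metric.tendsto_nhds.1 (hA R g hg) ε hε]
    with n hn h1 h2
  have e1 : (En n fun w => B * (1 - chi c R (Zn w)) + ε) =
      B * (1 - En n fun w => chi c R (Zn w)) + ε := by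
    rw [hn.add, hn.smul, hn.sub, hn.const, hn.const]
  have b2 := hn.mono _ _ fun w => (abs_le.1 (hpt (Zn w))).2
  have b3 := hn.mono _ _ fun w => (abs_le.1 (hpt (Zn w))).1
  rw [hn.sub, e1] at b2
  rw [hn.neg, hn.sub, e1] at b3
  rw [Real.dist_eq, abs_lt] at h1 h2 hR ⊢
  rw [abs_le] at b1
  have c1 : B * (1 - ∫ ω, chi c R (Z ω) ∂P) ≤ B * ε :=
    mul_le_mul_of_nonneg_left (by linarith [hR.1]) hB0
  have c2 : B * (1 - En n fun w => chi c R (Zn w)) ≤ B * (2 * ε) :=
    mul_le_mul_of_nonneg_left (by linarith [hR.1, h1.1]) hB0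
  constructor <;> linarith [b1.1, b1.2, h2.1, h2.2]

lemma isOpen_bad (I E : Type*) [MetricSpace I] [MetricSpace E] (δ η : ℝ) :
    IsOpen (Bad I E δ η) := by
  have : Bad I E δ η = ⋃ s, ⋃ t, ⋃ _ : dist s t ≤ δ, {w : C(I, E) | η < dist (w s) (w t)} := by
    ext w
    simp [Bad]
  rw [this]
  exact isOpen_iUnion fun s => isOpen_iUnion fun t => isOpen_iUnion fun _ =>
    isOpen_lt continuous_const (by fun_prop)

section Main

variable {I E Ω : Type*} [MetricSpace I] [CompactSpace I] [LinearOrder I]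
  [MetricSpace E] [ProperSpace E] [Nonempty E] [MeasurableSpace E] [BorelSpace E]
  [MeasurableSpace C(I, E)] [BorelSpace C(I, E)] [MeasurableSpace Ω]

lemma weak_lower (P : Measure Ω) [IsProbabilityMeasure P] {En : ℕ → (C(I, E) → ℝ) → ℝ}
    (hE : ∀ᶠ n in atTop, IsAvg (En n)) {Y : Ω → C(I, E)} (hY : AEMeasurable Y P)
    (hf : ∀ (k : ℕ) (t : Fin k → I), StrictMono t → ∀ f : Fin k → E → ℝ, (∀ i, Tst (f i)) →
      Tendsto (fun n => En n fun w => ∏ i, f i (w (t i))) atTop
        (𝓝 (∫ ω, ∏ i, f i (Y ω (t i)) ∂P)))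
    (hmod : ∀ η > 0, ∀ ε > 0, ∃ δ > 0, ∀ᶠ n in atTop,
      En n ((Bad I E δ η).indicator fun _ => 1) ≤ ε)
    {F : C(I, E) → ℝ} (hF : Continuous F) {B : ℝ} (hB : ∀ w, |F w| ≤ B) {ε0 : ℝ}
    (hε0 : 0 < ε0) : ∀ᶠ n in atTop, ∫ ω, F (Y ω) ∂P - ε0 < En n F := by
  obtain ⟨c⟩ := ‹Nonempty E›
  have hB0 : 0 ≤ B := (abs_nonneg _).trans (hB (ContinuousMap.const _ c))
  obtain ⟨ε, hε, hεe⟩ : ∃ ε > 0, (4 * B + 4) * ε = ε0 :=
    ⟨ε0 / (4 * B + 4), by positivity, by field_simp⟩
  have hu : (univ : Set C(I, E)).Nonempty := ⟨ContinuousMap.const _ c, mem_univ _⟩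
  have hint : ∀ (g : C(I, E) → ℝ) (b : ℝ), Measurable g → (∀ z, |g z| ≤ b) →
      Integrable (fun ω => g (Y ω)) P := fun g b hg hb =>
    Integrable.of_bound (hg.comp_aemeasurable hY).aestronglyMeasurable b
      (Eventually.of_forall fun ω => hb _)
  have hle : ∀ (L : ℕ) w, ic univ id F L w ≤ F w := fun L w => by
    simpa using ic_le (S := univ) (φ := id) (Nat.cast_nonneg L) hB w (mem_univ w)
  have habs : ∀ (L : ℕ) w, |ic univ id F L w| ≤ B := fun L w =>
    abs_le.2 ⟨ic_lower hu (Nat.cast_nonneg L) hB w, (hle L w).trans (abs_le.1 (hB w)).2⟩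
  have hi1 : ∀ L : ℕ, Integrable (fun ω => ic univ id F L (Y ω)) P := fun L =>
    hint _ B (ic_cont hu (Nat.cast_nonneg L) hB).measurable (habs L)
  have l1 := tendsto_integral_of_dominated_convergence (μ := P)
    (F := fun (L : ℕ) ω => ic univ id F L (Y ω)) (f := fun ω => F (Y ω)) (fun _ => B)
    (fun L => (hi1 L).aestronglyMeasurable) (integrable_const _)
    (fun L => Eventually.of_forall fun ω => habs L _)
    (Eventually.of_forall fun ω => ic_tendsto hF hB _)
  obtain ⟨L, hL⟩ := (Metric.tendsto_nhds.1 l1 ε hε).exists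
  have hL0 : (0 : ℝ) ≤ L := Nat.cast_nonneg L
  obtain ⟨η, hη, hηe⟩ : ∃ η > 0, (L + 1 : ℝ) * η = ε := ⟨ε / (L + 1), by positivity, by field_simp⟩
  obtain ⟨δ1, hδ1, h1⟩ := hmod η hη ε hε
  have hind : ∀ (δ : ℝ) (w : C(I, E)), |(Bad I E δ η).indicator (fun _ => (1 : ℝ)) w| ≤ 1 := by
    intro δ w
    by_cases h : w ∈ Bad I E δ η <;> simp [h]
  have hi2 : ∀ δ : ℝ, Integrable (fun ω => (Bad I E δ η).indicator (fun _ => (1 : ℝ)) (Y ω)) P :=
    fun δ => hint _ 1 (measurable_const.indicator (isOpen_bad I E δ η).measurableSet) (hind δ)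
  have hz : Tendsto (fun j : ℕ => 1 / ((j : ℝ) + 1)) atTop (𝓝 0) :=
    tendsto_one_div_add_atTop_nhds_zero_nat
  have l2 := tendsto_integral_of_dominated_convergence (μ := P)
    (F := fun (j : ℕ) ω => (Bad I E (1 / ((j : ℝ) + 1)) η).indicator (fun _ => (1 : ℝ)) (Y ω))
    (f := fun _ => (0 : ℝ)) (fun _ => 1)
    (fun j => (hi2 _).aestronglyMeasurable) (integrable_const _)
    (fun j => Eventually.of_forall fun ω => hind _ _)
    (Eventually.of_forall fun ω => by
      obtain ⟨δ, hδ, h⟩ := Metric.uniformContinuous_iff.1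
        (CompactSpace.uniformContinuous_of_continuous (Y ω).continuous) η hη
      refine tendsto_const_nhds.congr' ?_
      filter_upwards [hz.eventually (gt_mem_nhds hδ)] with j hj
      refine (indicator_of_notMem ?_ _).symm
      rintro ⟨s, t, h2, h3⟩
      exact lt_asymm h3 (h (h2.trans_lt hj)))
  rw [integral_zero] at l2
  obtain ⟨j, hj1, hj2⟩ := ((l2.eventually (gt_mem_nhds hε)).and
    (hz.eventually (gt_mem_nhds hδ1))).exists
  have hδ : 0 < 1 / ((j : ℝ) + 1) := by positivity
  generalize 1 / ((j : ℝ) + 1) = δ at hj1 hj2 hδ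
  obtain ⟨N, -, hNf, hN⟩ := finite_cover_balls_of_compact (isCompact_univ (X := I)) hδ
  let t : Fin hNf.toFinset.card → I := hNf.toFinset.orderEmbOfFin rfl
  have ht : StrictMono t := (hNf.toFinset.orderEmbOfFin rfl).strictMono
  have hnet : ∀ s, ∃ i, dist s (t i) ≤ δ := by
    intro s
    obtain ⟨x, hx, hs⟩ := mem_iUnion₂.1 (hN (mem_univ s))
    have : x ∈ range t := by
      rw [Finset.range_orderEmbOfFin]
      simpa using hx
    obtain ⟨i, rfl⟩ := this
    exact ⟨i, (mem_ball.1 hs).le⟩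
  let ev : C(I, E) → Fin hNf.toFinset.card → E := fun w i => w (t i)
  have hev : Continuous ev := by fun_prop
  have hA : (Bad I E δ η)ᶜ.Nonempty := ⟨ContinuousMap.const _ c, by
    rintro ⟨s, t, -, h⟩
    simp only [ContinuousMap.const_apply, dist_self] at h
    exact lt_asymm h hη⟩
  have hclose : ∀ w ∈ (Bad I E δ η)ᶜ, ∀ v ∈ (Bad I E δ η)ᶜ,
      dist w v ≤ dist (ev w) (ev v) + 2 * η := by
    intro w hw v hv
    refine (ContinuousMap.dist_le (by positivity)).2 fun s => ?_
    obtain ⟨i, hi⟩ := hnet s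
    have a1 : dist (w s) (w (t i)) ≤ η := not_lt.1 fun h => hw ⟨_, _, hi, h⟩
    have a2 : dist (v s) (v (t i)) ≤ η := not_lt.1 fun h => hv ⟨_, _, hi, h⟩
    have a3 : dist (w (t i)) (v (t i)) ≤ dist (ev w) (ev v) := dist_le_pi_dist (ev w) (ev v) i
    have a4 := dist_triangle4 (w s) (w (t i)) (v (t i)) (v s)
    rw [dist_comm (v (t i))] at a4
    linarith
  let G : (Fin hNf.toFinset.card → E) → ℝ := fun z => min (ic (Bad I E δ η)ᶜ ev F L z) B
  have hG : Continuous G := (ic_cont hA hL0 hB).min continuous_const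
  have hGB : ∀ z, |G z| ≤ B := fun z =>
    abs_le.2 ⟨le_min (ic_lower hA hL0 hB z) (by linarith), min_le_right _ _⟩
  have p1 : ∀ w, G (ev w) - 2 * B * (Bad I E δ1 η).indicator (fun _ => (1 : ℝ)) w ≤ F w := by
    intro w
    by_cases hw : w ∈ Bad I E δ1 η
    · rw [indicator_of_mem hw]
      linarith [(abs_le.1 (hGB (ev w))).2, (abs_le.1 (hB w)).1]
    · rw [indicator_of_notMem hw]
      have hw' : w ∈ (Bad I E δ η)ᶜ := fun ⟨s, t, h2, h3⟩ => hw ⟨s, t, h2.trans hj2.le, h3⟩
      have a1 := ic_le (φ := ev) hL0 hB (ev w) hw'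
      have a2 : G (ev w) ≤ _ := min_le_left _ _
      simp only [dist_self, mul_zero, add_zero] at a1
      linarith
  have p2 : ∀ w, ic univ id F L w - 2 * ε -
      2 * B * (Bad I E δ η).indicator (fun _ => (1 : ℝ)) w ≤ G (ev w) := by
    intro w
    by_cases hw : w ∈ Bad I E δ η
    · rw [indicator_of_mem hw]
      linarith [(abs_le.1 (hGB (ev w))).1, (abs_le.1 (habs L w)).2]
    · rw [indicator_of_notMem hw, mul_zero, sub_zero]
      refine le_min (le_ic hA fun v hv => ?_) (by linarith [(abs_le.1 (habs L w)).2])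
      have a1 := ic_le (S := univ) (φ := id) hL0 hB w (mem_univ v)
      have a2 := mul_le_mul_of_nonneg_left (hclose w hw v hv) hL0
      simp only [id] at a1
      nlinarith
  have q2 : ∫ ω, ic univ id F L (Y ω) ∂P - 2 * ε -
      2 * B * ∫ ω, (Bad I E δ η).indicator (fun _ => (1 : ℝ)) (Y ω) ∂P ≤
      ∫ ω, G (ev (Y ω)) ∂P := by
    have i1 : Integrable (fun ω => ic univ id F L (Y ω) - 2 * ε) P :=
      (hi1 L).sub (integrable_const _)
    have := integral_mono (i1.sub ((hi2 δ).const_mul (2 * B)))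
      (hint (fun w => G (ev w)) B (hG.comp hev).measurable fun w => hGB _) fun ω => p2 (Y ω)
    rw [integral_sub' i1 ((hi2 δ).const_mul (2 * B)), integral_const_mul,
      integral_sub (hi1 L) (integrable_const _)] at this
    simpa using this
  have l3 := fdd_cont P hE ev (Z := fun ω => ev (Y ω)) (hev.measurable.comp_aemeasurable hY)
    (hf _ t ht) hG hGB
  filter_upwards [hE, h1, Metric.tendsto_nhds.1 l3 ε hε] with n hn a1 a2
  have a3 := hn.mono _ _ p1
  rw [hn.sub, hn.smul] at a3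
  rw [Real.dist_eq, abs_lt] at a2 hL
  have a4 := mul_le_mul_of_nonneg_left a1 (show 0 ≤ 2 * B by positivity)
  have a5 := mul_le_mul_of_nonneg_left hj1.le (show 0 ≤ 2 * B by positivity)
  linarith [a2.1, hL.1]

/-- Finite dimensional convergence along increasing times, tested with Lipschitz functions of
compact support, and an asymptotic modulus bound give weak convergence on path space. -/
theorem weak_of_fdd (P : Measure Ω) [IsProbabilityMeasure P] {En : ℕ → (C(I, E) → ℝ) → ℝ}
    (hE : ∀ᶠ n in atTop, IsAvg (En n)) {Y : Ω → C(I, E)} (hY : AEMeasurable Y P)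
    (hf : ∀ (k : ℕ) (t : Fin k → I), StrictMono t → ∀ f : Fin k → E → ℝ, (∀ i, Tst (f i)) →
      Tendsto (fun n => En n fun w => ∏ i, f i (w (t i))) atTop
        (𝓝 (∫ ω, ∏ i, f i (Y ω (t i)) ∂P)))
    (hmod : ∀ η > 0, ∀ ε > 0, ∃ δ > 0, ∀ᶠ n in atTop,
      En n ((Bad I E δ η).indicator fun _ => 1) ≤ ε)
    {F : C(I, E) → ℝ} (hF : Continuous F) {B : ℝ} (hB : ∀ w, |F w| ≤ B) :
    Tendsto (fun n => En n F) atTop (𝓝 (∫ ω, F (Y ω) ∂P)) := by
  rw [Metric.tendsto_nhds]
  intro ε hε
  filter_upwards [hE, weak_lower P hE hY hf hmod hF hB hε,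
    weak_lower P hE hY hf hmod (F := fun w => -F w) hF.neg (B := B) (fun w => by simpa using hB w)
      hε] with n hn h1 h2
  rw [hn.neg, integral_neg] at h2
  rw [Real.dist_eq, abs_lt]
  constructor <;> linarith

omit [LinearOrder I] [Nonempty E] in
/-- A random continuous path is measurable as soon as its coordinates are. -/
theorem aemeasurable_path [Nonempty I] {P : Measure Ω} {Y : Ω → C(I, E)}
    (h : ∀ t, AEMeasurable (fun ω => Y ω t) P) : AEMeasurable Y P := by
  have he : MeasurableEmbedding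
      fun (w : C(I, E)) (n : ℕ) => w (TopologicalSpace.denseSeq I n) := by
    refine Continuous.measurableEmbedding (by fun_prop) ?_
    intro w w' h
    refine ContinuousMap.ext fun t => ?_
    have := (TopologicalSpace.denseRange_denseSeq I).equalizer w.continuous w'.continuous
      (funext fun n => congrFun h n)
    exact congrFun this t
  rw [← he.aemeasurable_comp_iff]
  exact aemeasurable_pi_lambda _ fun n => h _

end Main

/-- Finite averages are averages. -/
theorem isAvg_finset {X ι : Type*} (s : Finset ι) (hs : s.Nonempty) (E : ι → (X → ℝ) → ℝ)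
    (h : ∀ i ∈ s, IsAvg (E i)) : IsAvg fun F => (∑ i ∈ s, E i F) / s.card := by
  have hc : (0 : ℝ) < s.card := Nat.cast_pos.2 hs.card_pos
  refine ⟨fun F G => ?_, fun c F => ?_, fun F G hFG => ?_, ?_⟩
  · rw [← add_div, ← Finset.sum_add_distrib]
    exact congrArg (· / _) (Finset.sum_congr rfl fun i hi => (h i hi).add F G)
  · rw [← mul_div_assoc, Finset.mul_sum]
    exact congrArg (· / _) (Finset.sum_congr rfl fun i hi => (h i hi).smul c F)
  · exact div_le_div_of_nonneg_right (Finset.sum_le_sum fun i hi => (h i hi).mono F G hFG) hc.le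
  · rw [Finset.sum_congr rfl fun i hi => (h i hi).one]
    simp [hc.ne']

/-- Evaluation at a point is an average. -/
theorem isAvg_eval {X : Type*} (x : X) : IsAvg fun F : X → ℝ => F x :=
  ⟨fun _ _ => rfl, fun _ _ => rfl, fun _ _ h => h x, rfl⟩

end Pool.Agent.Lib.MP_0d9445_pr.Lim
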