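import Pool.Agent.Lib.MP_0d9445_pr.Lim.Weak

/-!
Weak convergence of interpolated discrete paths.
-/

set_option autoImplicit false

namespace Pool.Agent.Lib.MP_0d9445_pr.Lim

open Filter Topology MeasureTheory Set Metric WeakAux

/-- Discrete paths with an oscillation larger than `η` between two indices at most `N` at
distance at most `d`. -/
def DBad (E : Type*) [MetricSpace E] (N d η : ℝ) : Set (ℕ → E) :=
  {w | ∃ j k : ℕ, j ≤ N ∧ k ≤ N ∧ |(j : ℝ) - k| ≤ d ∧ η < dist (w j) (w k)}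

namespace DiscAux

variable {E : Type*} [MetricSpace E]

lemma tst_BL {f : E → ℝ} (h : Tst f) : BL f := by
  obtain ⟨⟨K, hK⟩, hc⟩ := h
  obtain ⟨B, hB⟩ := hc.exists_bound_of_continuous hK.continuous
  exact ⟨K, B, K.2, fun x y => hK.dist_le_mul x y, hB⟩

lemma prod_BL {k : ℕ} {f : Fin k → E → ℝ} (h : ∀ i, BL (f i)) :
    BL fun z : Fin k → E => ∏ i, f i (z i) := by
  have : ∀ s : Finset (Fin k), BL fun z : Fin k → E => ∏ i ∈ s, f i (z i) := by
    intro s
    induction s using Finset.induction_on with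
    | empty => simpa using BL.one
    | insert i s hi ih =>
      simp only [Finset.prod_insert hi]
      refine BL.mul ?_ ih
      obtain ⟨K, B, hK, h1, h2⟩ := h i
      exact ⟨K, B, hK, fun x y => (h1 _ _).trans
        (mul_le_mul_of_nonneg_left (dist_le_pi_dist x y i) hK), fun x => h2 _⟩
  exact this _

end DiscAux

open DiscAux in
/-- The interpolation `π n` is only asked to stay within one step of the last vertex. -/
theorem weak_of_discrete {E Ω : Type*} [MetricSpace E] [ProperSpace E] [Nonempty E]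
    [MeasurableSpace E] [BorelSpace E] {T : ℝ} [MeasurableSpace C(Icc (0 : ℝ) T, E)]
    [BorelSpace C(Icc (0 : ℝ) T, E)] [MeasurableSpace Ω] (P : Measure Ω) [IsProbabilityMeasure P]
    {En : ℕ → ((ℕ → E) → ℝ) → ℝ} (hE : ∀ᶠ n in atTop, IsAvg (En n)) {m : ℕ → ℝ}
    (hm : Tendsto m atTop atTop) (π : ℕ → (ℕ → E) → C(Icc (0 : ℝ) T, E))
    (hπ : ∀ᶠ n in atTop, ∀ w (t : Icc (0 : ℝ) T),
      dist (π n w t) (w ⌊t * m n⌋₊) ≤ dist (w (⌊t * m n⌋₊ + 1)) (w ⌊t * m n⌋₊))
    {Y : Ω → C(Icc (0 : ℝ) T, E)} (hY : AEMeasurable Y P)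
    (hf : ∀ (k : ℕ) (t : Fin k → Icc (0 : ℝ) T), StrictMono t → ∀ f : Fin k → E → ℝ,
      (∀ i, Tst (f i)) → Tendsto (fun n => En n fun w => ∏ i, f i (w ⌊t i * m n⌋₊)) atTop
        (𝓝 (∫ ω, ∏ i, f i (Y ω (t i)) ∂P)))
    (hmod : ∀ η > 0, ∀ ε > 0, ∃ δ > 0, ∀ᶠ n in atTop,
      En n ((DBad E (T * m n + 1) (δ * m n) η).indicator fun _ => 1) ≤ ε)
    {F : C(Icc (0 : ℝ) T, E) → ℝ} (hF : Continuous F) {B : ℝ} (hB : ∀ w, |F w| ≤ B) :
    Tendsto (fun n => En n fun w => F (π n w)) atTop (𝓝 (∫ ω, F (Y ω) ∂P)) := by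
  have hfl : ∀ {M : ℝ}, 0 ≤ M → ∀ t : Icc (0 : ℝ) T, ((⌊t * M⌋₊ : ℕ) : ℝ) ≤ T * M :=
    fun hM t => (Nat.floor_le (mul_nonneg t.2.1 hM)).trans (mul_le_mul_of_nonneg_right t.2.2 hM)
  have hstep : ∀ {δ η : ℝ}, 0 < δ → ∀ᶠ n in atTop, ∀ w, w ∉ DBad E (T * m n + 1) (δ * m n) η →
      ∀ t : Icc (0 : ℝ) T, dist (π n w t) (w ⌊t * m n⌋₊) ≤ η := by
    intro δ η hδ
    filter_upwards [hπ, hm.eventually (eventually_ge_atTop 0),
      (hm.const_mul_atTop hδ).eventually (eventually_ge_atTop 1)] with n h1 h2 h3 w hw t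
    refine (h1 w t).trans (not_lt.1 fun h => hw ⟨_, _, ?_, ?_, ?_, h⟩)
    · push_cast
      linarith [hfl h2 t]
    · linarith [hfl h2 t]
    · simpa using h3
  refine weak_of_fdd P (En := fun n F => En n fun w => F (π n w)) ?_ hY ?_ ?_ hF hB
  · filter_upwards [hE] with n hn
    exact hn.comp _
  · intro k t ht f hf'
    obtain ⟨K, C, hK, h1, h2⟩ := prod_BL fun i => tst_BL (hf' i)
    have hC : 0 ≤ C := (abs_nonneg _).trans (h2 fun _ => Classical.arbitrary E)
    rw [Metric.tendsto_nhds]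
    intro ε0 hε0
    obtain ⟨ε, hε, hεe⟩ : ∃ ε > 0, (K + 2 * C + 1) * ε = ε0 :=
      ⟨ε0 / (K + 2 * C + 1), by positivity, by field_simp⟩
    obtain ⟨δ, hδ, h3⟩ := hmod ε hε ε hε
    filter_upwards [hE, h3, hstep (η := ε) hδ, Metric.tendsto_nhds.1 (hf k t ht f hf') ε hε]
      with n hn a1 a2 a3
    have hpt : ∀ w, |∏ i, f i (π n w (t i)) - ∏ i, f i (w ⌊t i * m n⌋₊)| ≤ K * ε +
        2 * C * (DBad E (T * m n + 1) (δ * m n) ε).indicator (fun _ => (1 : ℝ)) w := by
      intro w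
      by_cases hw : w ∈ DBad E (T * m n + 1) (δ * m n) ε
      · rw [indicator_of_mem hw]
        have b1 := h2 fun i => π n w (t i)
        have b2 := h2 fun i => w ⌊t i * m n⌋₊
        have b3 : 0 ≤ K * ε := by positivity
        refine (abs_sub _ _).trans ?_
        linarith
      · rw [indicator_of_notMem hw, mul_zero, add_zero]
        refine (h1 (fun i => π n w (t i)) fun i => w ⌊t i * m n⌋₊).trans ?_
        exact mul_le_mul_of_nonneg_left ((dist_pi_le_iff hε.le).2 fun i => a2 w hw (t i)) hK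
    have b2 := hn.mono _ _ fun w => (abs_le.1 (hpt w)).2
    have b3 := hn.mono _ _ fun w => (abs_le.1 (hpt w)).1
    rw [hn.sub, hn.add, hn.const, hn.smul] at b2
    rw [hn.neg, hn.sub, hn.add, hn.const, hn.smul] at b3
    have b4 := mul_le_mul_of_nonneg_left a1 (show 0 ≤ 2 * C by positivity)
    rw [Real.dist_eq, abs_lt] at a3 ⊢
    constructor <;> linarith [a3.1, a3.2]
  · intro η hη ε hε
    obtain ⟨δ, hδ, h3⟩ := hmod (η / 3) (by positivity) ε hε
    refine ⟨δ / 2, by positivity, ?_⟩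
    filter_upwards [hE, h3, hstep (η := η / 3) hδ, hm.eventually (eventually_ge_atTop 0),
      (hm.const_mul_atTop hδ).eventually (eventually_ge_atTop 2)] with n hn a1 a2 a3 a4
    refine le_trans (hn.mono _ _ fun w => ?_) a1
    by_cases hw : w ∈ DBad E (T * m n + 1) (δ * m n) (η / 3)
    · rw [indicator_of_mem hw]
      by_cases h : π n w ∈ Bad (Icc (0 : ℝ) T) E (δ / 2) η <;> simp [h]
    · rw [indicator_of_notMem hw]
      refine le_of_eq (indicator_of_notMem ?_ _)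
      rintro ⟨s, t, h1, h2⟩
      have b1 := a2 w hw s
      have b2 := a2 w hw t
      have b3 : dist (w ⌊s * m n⌋₊) (w ⌊t * m n⌋₊) ≤ η / 3 := by
        refine not_lt.1 fun h => hw ⟨_, _, by linarith [hfl a3 s], by linarith [hfl a3 t], ?_, h⟩
        have c1 := Nat.floor_le (mul_nonneg s.2.1 a3)
        have c2 := Nat.floor_le (mul_nonneg t.2.1 a3)
        have c3 := Nat.lt_floor_add_one ((s : ℝ) * m n)
        have c4 := Nat.lt_floor_add_one ((t : ℝ) * m n)
        have c5 : |(s : ℝ) - t| ≤ δ / 2 := h1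
        rw [abs_le] at c5 ⊢
        have c6 := mul_le_mul_of_nonneg_right c5.1 a3
        have c7 := mul_le_mul_of_nonneg_right c5.2 a3
        constructor <;> linarith
      have b4 := dist_triangle4 (π n w s) (w ⌊s * m n⌋₊) (w ⌊t * m n⌋₊) (π n w t)
      rw [dist_comm (w ⌊t * m n⌋₊)] at b4
      linarith

end Pool.Agent.Lib.MP_0d9445_pr.Lim
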