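import Pool.Agent.Lib.MP_0d9445_pr.Lim.Scalar
import Pool.Agent.Lib.MP_0d9445_pr.Lim.Disc

/-!
Finite dimensional convergence of Markov walks from resolvent convergence.
-/

set_option autoImplicit false

namespace Pool.Agent.Lib.MP_0d9445_pr.Lim

open Filter Topology MeasureTheory Set Real WeakAux

/-- The functional depends only on the coordinates up to `N`. -/
def DepLe {E : Type*} (N : ℕ) (G : (ℕ → E) → ℝ) : Prop :=
  ∀ w w' : ℕ → E, (∀ j ≤ N, w j = w' j) → G w = G w'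

/-- Expectations `En N` of a walk run for `N` steps, with step operator `Q`, carried by `V`. -/
structure IsWalk {E : Type*} (En : ℕ → ((ℕ → E) → ℝ) → ℝ) (Q : (E → ℝ) → E → ℝ) (V : Set E) :
    Prop where
  avg : ∀ N, IsAvg (En N)
  car : ∀ N (F G : (ℕ → E) → ℝ), (∀ w, w N ∈ V → F w ≤ G w) → En N F ≤ En N G
  cons : ∀ N G, DepLe N G → En (N + 1) G = En N G
  markov : ∀ N G (h : E → ℝ), DepLe N G →
    En (N + 1) (fun w => G w * h (w (N + 1))) = En N fun w => G w * Q h (w N)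

/-- The martingale identity, tested with products of test functions. -/
def MP {E Ω : Type*} [MetricSpace E] [MeasurableSpace Ω] (P : Measure Ω) (Y : Ω → ℝ → E)
    (u φ : E → ℝ) : Prop :=
  ∀ (k : ℕ) (t : Fin k → ℝ) (f : Fin k → E → ℝ) (s s' : ℝ), (∀ i, Tst (f i)) →
    (∀ i, 0 ≤ t i ∧ t i ≤ s) → 0 ≤ s → s ≤ s' →
    ∫ ω, (∏ i, f i (Y ω (t i))) * (u (Y ω s') - u (Y ω s) + ∫ r in s..s', φ (Y ω r)) ∂P = 0

/-- Subsequential convergence of the resolvents to solutions of the martingale identity. -/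
def Res {E Ω : Type*} [MetricSpace E] [MeasurableSpace Ω] (P : Measure Ω) (Y : Ω → ℝ → E)
    (Q : ℕ → (E → ℝ) → E → ℝ) (V : ℕ → Set E) (m : ℕ → ℝ) : Prop :=
  ∀ α : ℝ, 0 < α → ∀ f : E → ℝ, Tst f → ∀ ns : ℕ → ℕ, Tendsto ns atTop atTop →
    ∃ (ms : ℕ → ℕ) (u : E → ℝ) (un : ℕ → E → ℝ), Tendsto ms atTop atTop ∧ Continuous u ∧
      (∃ B, ∀ x, |u x| ≤ B) ∧
      (∀ᶠ l in atTop, ∀ x ∈ V (ns (ms l)), (1 + α / m (ns (ms l))) * un l x =
        Q (ns (ms l)) (un l) x + f x / m (ns (ms l))) ∧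
      (∀ ε > 0, ∀ᶠ l in atTop, ∀ x ∈ V (ns (ms l)), |un l x - u x| ≤ ε) ∧
      MP P Y u fun x => f x - α * u x

/-- The modulus bound on every bounded time range. -/
def Modu {E : Type*} [MetricSpace E] (En : ℕ → ℕ → ((ℕ → E) → ℝ) → ℝ) (m : ℕ → ℝ) : Prop :=
  ∀ T : ℝ, 0 ≤ T → ∀ η > 0, ∀ ε > 0, ∃ δ > 0, ∀ᶠ n in atTop,
    En n (⌊T * m n⌋₊ + 1) ((DBad E (T * m n + 1) (δ * m n) η).indicator fun _ => 1) ≤ ε

lemma DepLe.mono {E : Type*} {N N' : ℕ} {G : (ℕ → E) → ℝ} (h : DepLe N G) (hN : N ≤ N') :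
    DepLe N' G := fun w w' hw => h w w' fun j hj => hw j (hj.trans hN)

lemma DepLe.mul_eval {E : Type*} {N N' : ℕ} {G : (ℕ → E) → ℝ} (h : DepLe N G) (hN : N ≤ N')
    (f : E → ℝ) : DepLe N' fun w => G w * f (w N') := fun w w' hw => by
  show G w * f (w N') = G w' * f (w' N')
  rw [h.mono hN w w' hw, hw N' le_rfl]

namespace IsWalk

variable {E : Type*} {En : ℕ → ((ℕ → E) → ℝ) → ℝ} {Q : (E → ℝ) → E → ℝ} {V : Set E}

lemma cons_le (h : IsWalk En Q V) {N N' : ℕ} {G : (ℕ → E) → ℝ} (hG : DepLe N G) (hN : N ≤ N') :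
    En N' G = En N G := by
  induction N', hN using Nat.le_induction with
  | base => rfl
  | succ n hn ih => rw [h.cons n G (hG.mono hn), ih]

lemma abs_le_car (h : IsWalk En Q V) (N : ℕ) {F : (ℕ → E) → ℝ} {c : ℝ}
    (hF : ∀ w, w N ∈ V → |F w| ≤ c) : |En N F| ≤ c := by
  have h1 := h.car N F (fun _ => c) fun w hw => (abs_le.1 (hF w hw)).2
  have h2 := h.car N (fun _ => -c) F fun w hw => (abs_le.1 (hF w hw)).1
  rw [(h.avg N).const] at h1 h2
  exact abs_le.2 ⟨h2, h1⟩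

lemma congr_car (h : IsWalk En Q V) (N : ℕ) {F G : (ℕ → E) → ℝ}
    (hF : ∀ w, w N ∈ V → F w = G w) : En N F = En N G :=
  le_antisymm (h.car N _ _ fun w hw => (hF w hw).le) (h.car N _ _ fun w hw => (hF w hw).ge)

/-- The solution of the resolvent equation is the discrete Laplace transform. -/
lemma res_eq (h : IsWalk En Q V) {α m C B : ℝ} (hα : 0 < α) (hm : 0 < m) {N : ℕ}
    {G : (ℕ → E) → ℝ} (hG : DepLe N G) (hGC : ∀ w, |G w| ≤ C) {u f : E → ℝ}
    (hu : ∀ x ∈ V, |u x| ≤ B) (hf : ∀ x ∈ V, |f x| ≤ B)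
    (he : ∀ x ∈ V, (1 + α / m) * u x = Q u x + f x / m) :
    (En N fun w => G w * u (w N)) = ∑' j : ℕ, 1 / m * ((1 + α / m)⁻¹) ^ (j + 1) *
      En (N + j) fun w => G w * f (w (N + j)) := by
  have hb : ∀ g : E → ℝ, (∀ x ∈ V, |g x| ≤ B) → ∀ j,
      |En (N + j) fun w => G w * g (w (N + j))| ≤ C * B := fun g hg j =>
    h.abs_le_car _ fun w hw => by
      rw [abs_mul]
      exact mul_le_mul (hGC w) (hg _ hw) (abs_nonneg _) ((abs_nonneg _).trans (hGC w))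
  refine rec_laplace (v := fun j => En (N + j) fun w => G w * u (w (N + j))) hα hm (hb u hu)
    (hb f hf) fun j => ?_
  rw [← add_assoc, h.markov _ _ _ (hG.mono (Nat.le_add_right N j)), ← (h.avg _).smul,
    div_eq_inv_mul (En _ _) m, ← (h.avg _).smul, ← (h.avg _).add]
  refine h.congr_car _ fun w hw => ?_
  linear_combination G w * he _ hw

end IsWalk

section

variable {E Ω : Type*} [MetricSpace E] [ProperSpace E] [Nonempty E] [MeasurableSpace E]
  [BorelSpace E] [MeasurableSpace Ω] {P : Measure Ω} [IsProbabilityMeasure P]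
  {En : ℕ → ℕ → ((ℕ → E) → ℝ) → ℝ} {Q : ℕ → (E → ℝ) → E → ℝ} {V : ℕ → Set E} {m : ℕ → ℝ}

namespace FddAux

omit [ProperSpace E] [Nonempty E] [MeasurableSpace E] [BorelSpace E] in
lemma dep_bad {T M d η : ℝ} (hTM : 0 ≤ T * M) :
    DepLe (⌊T * M⌋₊ + 1) ((DBad E (T * M + 1) d η).indicator fun _ => (1 : ℝ)) := by
  have h0 : ∀ j : ℕ, (j : ℝ) ≤ T * M + 1 → j ≤ ⌊T * M⌋₊ + 1 := fun j hj => by
    rw [← Nat.floor_add_one hTM]
    exact Nat.le_floor hj
  have h1 : ∀ w w' : ℕ → E, (∀ j ≤ ⌊T * M⌋₊ + 1, w j = w' j) →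
      w ∈ DBad E (T * M + 1) d η → w' ∈ DBad E (T * M + 1) d η := by
    rintro w w' h ⟨j, k, a1, a2, a3, a4⟩
    exact ⟨j, k, a1, a2, a3, by rwa [← h j (h0 j a1), ← h k (h0 k a2)]⟩
  intro w w' h
  by_cases hw : w ∈ DBad E (T * M + 1) d η
  · rw [indicator_of_mem hw, indicator_of_mem (h1 w w' h hw)]
  · rw [indicator_of_notMem hw,
      indicator_of_notMem fun h' => hw (h1 w' w (fun j hj => (h j hj).symm) h')]

omit [Nonempty E] in
/-- One more time. -/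
lemma step (hW : ∀ᶠ n in atTop, IsWalk (En n) (Q n) (V n)) (hm : Tendsto m atTop atTop)
    {Z : Ω → C(ℝ, E)} (hZ : ∀ t, AEMeasurable (fun ω => Z ω t) P)
    (hres : Res P (fun ω t => Z ω t) Q V m) (hmod : Modu En m)
    {k : ℕ} {t : Fin k → ℝ} {f : Fin k → E → ℝ} (hf : ∀ i, Tst (f i)) {s0 : ℝ} (hs0 : 0 ≤ s0)
    (ht : ∀ i, 0 ≤ t i ∧ t i ≤ s0)
    (h0 : ∀ (u : E → ℝ) (B : ℝ), Continuous u → (∀ x, |u x| ≤ B) →
      Tendsto (fun n => En n ⌊s0 * m n⌋₊ fun w =>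
        (∏ i, f i (w ⌊t i * m n⌋₊)) * u (w ⌊s0 * m n⌋₊)) atTop
        (𝓝 (∫ ω, (∏ i, f i (Z ω (t i))) * u (Z ω s0) ∂P)))
    {s : ℝ} (hs : s0 ≤ s) {h : E → ℝ} (hh : Tst h) :
    Tendsto (fun n => En n ⌊s * m n⌋₊ fun w =>
        (∏ i, f i (w ⌊t i * m n⌋₊)) * h (w ⌊s * m n⌋₊)) atTop
        (𝓝 (∫ ω, (∏ i, f i (Z ω (t i))) * h (Z ω s) ∂P)) := by
  obtain ⟨_, C, -, -, hC⟩ := DiscAux.prod_BL fun i => DiscAux.tst_BL (hf i)
  obtain ⟨K, B, hK, hL, hB⟩ := DiscAux.tst_BL hh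
  have hhc : Continuous h := (DiscAux.tst_BL hh).cont
  have hpos : ∀ᶠ n in atTop, 0 < m n := hm.eventually (eventually_gt_atTop 0)
  let G : ℕ → (ℕ → E) → ℝ := fun n w => ∏ i, f i (w ⌊t i * m n⌋₊)
  have hGC : ∀ n w, |G n w| ≤ C := fun n w => hC fun i => w ⌊t i * m n⌋₊
  have hGd : ∀ n, 0 < m n → DepLe ⌊s0 * m n⌋₊ (G n) := fun n hn w w' hw =>
    Finset.prod_congr rfl fun i _ => by
      rw [hw _ (Nat.floor_mono (mul_le_mul_of_nonneg_right (ht i).2 hn.le))]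
  let Γ : Ω → ℝ := fun ω => ∏ i, f i (Z ω (t i))
  have hΓC : ∀ ω, |Γ ω| ≤ C := fun ω => hC fun i => Z ω (t i)
  have hΓ : AEMeasurable Γ P := Finset.aemeasurable_fun_prod _ fun i _ =>
    (DiscAux.tst_BL (hf i)).cont.measurable.comp_aemeasurable (hZ _)
  have hg : Continuous fun τ => ∫ ω, Γ ω * h (Z ω (s0 + τ)) ∂P :=
    (continuous_time hZ hΓ hΓC hhc hB).comp (continuous_const_add s0)
  have key := laplace_point
    (a := fun n j => En n (⌊s0 * m n⌋₊ + j) fun w => G n w * h (w (⌊s0 * m n⌋₊ + j)))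
    (g := fun τ => ∫ ω, Γ ω * h (Z ω (s0 + τ)) ∂P) (C := C * B) hm ?_ hg.aestronglyMeasurable
    (fun τ _ => (integrable_time hZ hΓ hΓC hhc hB _).2) ?_ (sub_nonneg.2 hs)
    hg.continuousWithinAt
    (b := fun n => En n ⌊s * m n⌋₊ fun w => G n w * h (w ⌊s * m n⌋₊)) ?_
  · simpa only [add_sub_cancel] using key
  · filter_upwards [hW] with n hn j
    refine hn.abs_le_car _ fun w _ => ?_
    rw [abs_mul]
    exact mul_le_mul (hGC n w) (hB _) (abs_nonneg _) ((abs_nonneg _).trans (hGC n w))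
  · intro i
    have hα : (0 : ℝ) < i + 1 := by positivity
    refine tendsto_of_subseq_tendsto fun ns hns => ?_
    obtain ⟨ms, u, un, hms, hu, ⟨Bu, hBu⟩, he, hc, hmp⟩ := hres _ hα h hh ns hns
    refine ⟨ms, ?_⟩
    have hl := hns.comp hms
    rw [← mp_laplace hZ hΓ hΓC hu hhc (B := max Bu B) (fun x => (hBu x).trans (le_max_left _ _))
      (fun x => (hB x).trans (le_max_right _ _)) hα fun s' hs' => hmp k t f s0 s' hf ht hs0 hs']
    have t1 := (h0 u Bu hu hBu).comp hl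
    rw [Metric.tendsto_nhds]
    intro ε0 hε0
    obtain ⟨ε, hε, hεe⟩ : ∃ ε > 0, (|C| + 1) * ε = ε0 :=
      ⟨ε0 / (|C| + 1), by positivity, by field_simp⟩
    filter_upwards [hl.eventually hW, hl.eventually hpos, he, hc ε hε, hc 1 one_pos,
      Metric.tendsto_nhds.1 t1 ε hε] with l a1 a2 a3 a4 a5 a6
    simp only [Function.comp] at a1 a2 a6
    rw [← a1.res_eq hα a2 (hGd _ a2) (hGC _) (B := max (Bu + 1) B) (fun x hx => ?_)
      (fun x _ => (hB x).trans (le_max_right _ _)) a3]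
    · have b1 := a1.abs_le_car ⌊s0 * m (ns (ms l))⌋₊ (c := |C| * ε)
        (F := fun w => G (ns (ms l)) w * un l (w ⌊s0 * m (ns (ms l))⌋₊) -
          G (ns (ms l)) w * u (w ⌊s0 * m (ns (ms l))⌋₊)) fun w hw => by
          rw [← mul_sub, abs_mul]
          exact mul_le_mul ((hGC _ w).trans (le_abs_self C)) (a4 _ hw) (abs_nonneg _)
            (abs_nonneg _)
      rw [(a1.avg _).sub, abs_le] at b1
      rw [Real.dist_eq, abs_lt] at a6 ⊢
      constructor <;> linarith [b1.1, b1.2, a6.1, a6.2]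
    · refine le_trans ?_ (le_max_left _ _)
      have b1 := abs_le.1 (a5 x hx)
      have b2 := abs_le.1 (hBu x)
      rw [abs_le]
      constructor <;> linarith [b1.1, b1.2, b2.1, b2.2]
  · intro ε0 hε0
    obtain ⟨ε, hε, hεe⟩ : ∃ ε > 0, (|C| * (K + 2 * |B|) + 1) * ε = ε0 :=
      ⟨ε0 / (|C| * (K + 2 * |B|) + 1), by positivity, by field_simp⟩
    have hs1 : 0 ≤ s + 1 := by linarith
    obtain ⟨δ, hδ, h1⟩ := hmod (s + 1) hs1 ε hε ε hε
    refine ⟨min (δ / 2) 1, by positivity, ?_⟩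
    filter_upwards [hW, hpos, h1, (hm.const_mul_atTop hδ).eventually (eventually_ge_atTop 2)]
      with n hn a1 a2 a3 j hj
    have c1 := Nat.floor_le (mul_nonneg hs0 a1.le)
    have c2 := Nat.floor_le (mul_nonneg (hs0.trans hs) a1.le)
    have c3 := Nat.lt_floor_add_one (s0 * m n)
    have c4 := Nat.lt_floor_add_one (s * m n)
    have c5 : |(j : ℝ) - (s - s0) * m n| ≤ min (δ / 2) 1 * m n := by
      rw [← div_le_iff₀ a1, ← abs_of_pos a1, ← abs_div, abs_of_pos a1, sub_div,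
        mul_div_cancel_right₀ _ a1.ne']
      exact hj
    have c6 := abs_le.1 (c5.trans (mul_le_mul_of_nonneg_right (min_le_left _ _) a1.le))
    have c7 := abs_le.1 (c5.trans (mul_le_mul_of_nonneg_right (min_le_right _ _) a1.le))
    have d1 : ((⌊s0 * m n⌋₊ + j : ℕ) : ℝ) ≤ (s + 1) * m n := by
      push_cast
      linarith [c7.2]
    have d2 : ((⌊s * m n⌋₊ : ℕ) : ℝ) ≤ (s + 1) * m n := by linarith
    have d3 : |((⌊s0 * m n⌋₊ + j : ℕ) : ℝ) - (⌊s * m n⌋₊ : ℕ)| ≤ δ * m n := by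
      push_cast
      rw [abs_le]
      constructor <;> linarith [c6.1, c6.2]
    have e1 : ⌊s0 * m n⌋₊ + j ≤ ⌊(s + 1) * m n⌋₊ + 1 := (Nat.le_floor d1).trans (Nat.le_succ _)
    have e2 : ⌊s * m n⌋₊ ≤ ⌊(s + 1) * m n⌋₊ + 1 := (Nat.le_floor d2).trans (Nat.le_succ _)
    rw [← hn.cons_le ((hGd n a1).mul_eval (Nat.le_add_right _ j) h) e1,
      ← hn.cons_le ((hGd n a1).mul_eval
        (Nat.floor_mono (mul_le_mul_of_nonneg_right hs a1.le)) h) e2]
    have hA := hn.avg (⌊(s + 1) * m n⌋₊ + 1)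
    have hpt : ∀ w, |G n w * h (w (⌊s0 * m n⌋₊ + j)) - G n w * h (w ⌊s * m n⌋₊)| ≤
        |C| * K * ε + |C| * (2 * |B|) *
          (DBad E ((s + 1) * m n + 1) (δ * m n) ε).indicator (fun _ => (1 : ℝ)) w := by
      intro w
      rw [← mul_sub, abs_mul, mul_assoc, mul_assoc, ← mul_add]
      refine mul_le_mul ((hGC n w).trans (le_abs_self C)) ?_ (abs_nonneg _) (abs_nonneg _)
      by_cases hw : w ∈ DBad E ((s + 1) * m n + 1) (δ * m n) ε
      · rw [indicator_of_mem hw]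
        have b1 := (hB (w (⌊s0 * m n⌋₊ + j))).trans (le_abs_self B)
        have b2 := (hB (w ⌊s * m n⌋₊)).trans (le_abs_self B)
        have b3 : 0 ≤ K * ε := by positivity
        refine (abs_sub _ _).trans ?_
        linarith
      · rw [indicator_of_notMem hw, mul_zero, add_zero]
        refine (hL _ _).trans (mul_le_mul_of_nonneg_left (not_lt.1 fun h' => hw
          ⟨_, _, by linarith, by linarith, d3, h'⟩) hK)
    have b2 := hA.mono _ _ fun w => (abs_le.1 (hpt w)).2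
    have b3 := hA.mono _ _ fun w => (abs_le.1 (hpt w)).1
    rw [hA.sub, hA.add, hA.const, hA.smul] at b2
    rw [hA.neg, hA.sub, hA.add, hA.const, hA.smul] at b3
    have b4 := mul_le_mul_of_nonneg_left a2 (show 0 ≤ |C| * (2 * |B|) by positivity)
    rw [abs_le]
    constructor <;> linarith

lemma ind (hW : ∀ᶠ n in atTop, IsWalk (En n) (Q n) (V n)) (hm : Tendsto m atTop atTop)
    {Z : Ω → C(ℝ, E)} (hZ : ∀ t, AEMeasurable (fun ω => Z ω t) P)
    (hres : Res P (fun ω t => Z ω t) Q V m) (hmod : Modu En m)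
    (h0 : ∀ (u : E → ℝ) (B : ℝ), Continuous u → (∀ x, |u x| ≤ B) →
      Tendsto (fun n => En n 0 fun w => u (w 0)) atTop (𝓝 (∫ ω, u (Z ω 0) ∂P))) (k : ℕ) :
    ∀ t : Fin (k + 1) → ℝ, Monotone t → 0 ≤ t 0 → ∀ f : Fin (k + 1) → E → ℝ, (∀ i, Tst (f i)) →
      Tendsto (fun n => En n ⌊t (Fin.last k) * m n⌋₊ fun w => ∏ i, f i (w ⌊t i * m n⌋₊)) atTop
        (𝓝 (∫ ω, ∏ i, f i (Z ω (t i)) ∂P)) := by
  induction k with
  | zero =>
    intro t _ ht f hf
    have := step hW hm hZ hres hmod (k := 0) (t := Fin.elim0) (f := Fin.elim0)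
      (fun i => i.elim0) le_rfl (fun i => i.elim0)
      (fun u B hu hB => by simpa using h0 u B hu hB) ht (hf 0)
    simpa using this
  | succ k ih =>
    intro t hmono ht f hf
    simp only [Fin.prod_univ_castSucc (n := k + 1)]
    have hle : ∀ i : Fin (k + 1), t i.castSucc ≤ t (Fin.last k).castSucc := fun i =>
      hmono (Fin.castSucc_le_castSucc_iff.2 (Fin.le_last i))
    refine step hW hm hZ hres hmod (t := fun i => t i.castSucc) (f := fun i => f i.castSucc)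
      (fun i => hf _) (s0 := t (Fin.last k).castSucc) (ht.trans (hmono (Fin.zero_le _)))
      (fun i => ⟨ht.trans (hmono (Fin.zero_le _)), hle i⟩) ?_ (hmono (Fin.le_last _)) (hf _)
    intro u B hu hB
    obtain ⟨_, C, -, -, hC⟩ := DiscAux.prod_BL fun i : Fin (k + 1) =>
      DiscAux.tst_BL (hf i.castSucc)
    have hcont : Continuous fun z : Fin (k + 1) → E =>
        (∏ i, f i.castSucc (z i)) * u (z (Fin.last k)) :=
      (DiscAux.prod_BL fun i : Fin (k + 1) => DiscAux.tst_BL (hf i.castSucc)).cont.mul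
        (hu.comp (continuous_apply _))
    -- the index `n` is put into the state so that the coordinate map does not depend on `n`
    exact fdd_cont P (X := Fin (k + 1) → E)
      (En := fun n F => En n ⌊t (Fin.last k).castSucc * m n⌋₊ fun w =>
        F fun i => w ⌊t i.castSucc * m n⌋₊)
      (hW.mono fun n hn => (hn.avg _).comp _) id (Z := fun ω i => Z ω (t i.castSucc))
      (aemeasurable_pi_lambda _ fun i => hZ _)
      (fun g hg => ih (fun i => t i.castSucc)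
        (fun i j hij => hmono (Fin.castSucc_le_castSucc_iff.2 hij)) ht g hg)
      hcont (B := C * B) fun z => by
        rw [abs_mul]
        exact mul_le_mul (hC z) (hB _) (abs_nonneg _) ((abs_nonneg _).trans (hC z))

omit [ProperSpace E] [Nonempty E] [MeasurableSpace E] [BorelSpace E] [IsProbabilityMeasure P] in
lemma mp_congr {Y Z : Ω → ℝ → E} (h : ∀ᵐ ω ∂P, ∀ t, 0 ≤ t → Z ω t = Y ω t) {u φ : E → ℝ}
    (hY : MP P Y u φ) : MP P Z u φ := by
  intro k t f s s' hf ht hs hs'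
  rw [← hY k t f s s' hf ht hs hs']
  refine integral_congr_ae ?_
  filter_upwards [h] with ω hω
  rw [hω s hs, hω s' (hs.trans hs'), Finset.prod_congr rfl fun i _ => by rw [hω _ (ht i).1]]
  congr 2
  refine intervalIntegral.integral_congr fun r hr => ?_
  rw [uIcc_of_le hs'] at hr
  simp only [hω r (hs.trans hr.1)]

end FddAux

/-- Finite dimensional convergence. -/
theorem fdd_of_res (hW : ∀ᶠ n in atTop, IsWalk (En n) (Q n) (V n)) (hm : Tendsto m atTop atTop)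
    {Y : Ω → ℝ → E} (hc : ∀ᵐ ω ∂P, ContinuousOn (Y ω) (Ici 0))
    (hY : ∀ t, 0 ≤ t → AEMeasurable (fun ω => Y ω t) P)
    (hres : Res P Y Q V m) (hmod : Modu En m)
    (h0 : ∀ (u : E → ℝ) (B : ℝ), Continuous u → (∀ x, |u x| ≤ B) →
      Tendsto (fun n => En n 0 fun w => u (w 0)) atTop (𝓝 (∫ ω, u (Y ω 0) ∂P)))
    {k : ℕ} {t : Fin k → ℝ} (ht : Monotone t) (ht0 : ∀ i, 0 ≤ t i) {f : Fin k → E → ℝ}
    (hf : ∀ i, Tst (f i)) {N : ℕ → ℕ} (hN : ∀ᶠ n in atTop, ∀ i, ⌊t i * m n⌋₊ ≤ N n) :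
    Tendsto (fun n => En n (N n) fun w => ∏ i, f i (w ⌊t i * m n⌋₊)) atTop
      (𝓝 (∫ ω, ∏ i, f i (Y ω (t i)) ∂P)) := by
  cases k with
  | zero =>
    simp only [Finset.univ_eq_empty, Finset.prod_empty, integral_const, probReal_univ, one_smul]
    refine tendsto_const_nhds.congr' ?_
    filter_upwards [hW] with n hn
    exact (hn.avg _).one.symm
  | succ k =>
    obtain ⟨Z, hZ, hZY⟩ := exists_version hc hY
    have hres' : Res P (fun ω t => Z ω t) Q V m := by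
      intro α hα g hg ns hns
      obtain ⟨ms, u, un, a1, a2, a3, a4, a5, a6⟩ := hres α hα g hg ns hns
      exact ⟨ms, u, un, a1, a2, a3, a4, a5, FddAux.mp_congr hZY a6⟩
    have key := FddAux.ind hW hm hZ hres' hmod (fun u B hu hB => by
      have e : ∫ ω, u (Z ω 0) ∂P = ∫ ω, u (Y ω 0) ∂P :=
        integral_congr_ae (hZY.mono fun ω hω => by simp only [hω 0 le_rfl])
      rw [e]
      exact h0 u B hu hB) k t ht (ht0 0) f hf
    have e : ∫ ω, ∏ i, f i (Z ω (t i)) ∂P = ∫ ω, ∏ i, f i (Y ω (t i)) ∂P :=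
      integral_congr_ae (hZY.mono fun ω hω =>
        Finset.prod_congr rfl fun i _ => by rw [hω _ (ht0 i)])
    rw [e] at key
    refine key.congr' ?_
    filter_upwards [hW, hN, hm.eventually (eventually_ge_atTop 0)] with n hn h1 h2
    refine (hn.cons_le (fun w w' hw => Finset.prod_congr rfl fun i _ => ?_) (h1 _)).symm
    rw [hw _ (Nat.floor_mono (mul_le_mul_of_nonneg_right (ht (Fin.le_last i)) h2))]

/-- Resolvent convergence and the modulus bound give weak convergence of the interpolated walk. -/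
theorem walk_weak (hW : ∀ᶠ n in atTop, IsWalk (En n) (Q n) (V n)) (hm : Tendsto m atTop atTop)
    {Y : Ω → ℝ → E} (hc : ∀ᵐ ω ∂P, ContinuousOn (Y ω) (Ici 0))
    (hY : ∀ t, 0 ≤ t → AEMeasurable (fun ω => Y ω t) P)
    (hres : Res P Y Q V m) (hmod : Modu En m)
    (h0 : ∀ (u : E → ℝ) (B : ℝ), Continuous u → (∀ x, |u x| ≤ B) →
      Tendsto (fun n => En n 0 fun w => u (w 0)) atTop (𝓝 (∫ ω, u (Y ω 0) ∂P)))
    {T : ℝ} (hT : 0 ≤ T) (pl : ℕ → (ℕ → E) → C(Icc (0 : ℝ) T, E))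
    (hpl : ∀ᶠ n in atTop, ∀ w (t : Icc (0 : ℝ) T),
      dist (pl n w t) (w ⌊t * m n⌋₊) ≤ dist (w (⌊t * m n⌋₊ + 1)) (w ⌊t * m n⌋₊))
    {Y' : Ω → C(Icc (0 : ℝ) T, E)} (hY' : ∀ᵐ ω ∂P, ∀ t : Icc (0 : ℝ) T, Y' ω t = Y ω t)
    {N : ℕ → ℕ} (hN : ∀ᶠ n in atTop, ⌊T * m n⌋₊ + 1 ≤ N n)
    {F : C(Icc (0 : ℝ) T, E) → ℝ} (hF : Continuous F) {B : ℝ} (hB : ∀ w, |F w| ≤ B) :
    Tendsto (fun n => En n (N n) fun w => F (pl n w)) atTop (𝓝 (∫ ω, F (Y' ω) ∂P)) := by
  let _ : MeasurableSpace C(Icc (0 : ℝ) T, E) := borel _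
  have : BorelSpace C(Icc (0 : ℝ) T, E) := ⟨rfl⟩
  have : Nonempty (Icc (0 : ℝ) T) := ⟨⟨0, le_rfl, hT⟩⟩
  have hM := hm.eventually (eventually_ge_atTop 0)
  refine weak_of_discrete P (En := fun n => En n (N n)) (hW.mono fun n hn => hn.avg _) hm pl hpl
    (aemeasurable_path fun t => (hY t t.2.1).congr (hY'.mono fun ω hω => (hω t).symm))
    ?_ ?_ hF hB
  · intro k t ht f hf
    have e : ∫ ω, ∏ i, f i (Y' ω (t i)) ∂P = ∫ ω, ∏ i, f i (Y ω (t i)) ∂P :=
      integral_congr_ae (hY'.mono fun ω hω => Finset.prod_congr rfl fun i _ => by rw [hω])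
    rw [e]
    refine fdd_of_res hW hm hc hY hres hmod h0 (t := fun i => t i)
      (fun i j hij => ht.monotone hij) (fun i => (t i).2.1) hf ?_
    filter_upwards [hN, hM] with n h1 h2 i
    exact (Nat.floor_mono (mul_le_mul_of_nonneg_right (t i).2.2 h2)).trans
      ((Nat.le_succ _).trans h1)
  · intro η hη ε hε
    obtain ⟨δ, hδ, h⟩ := hmod T hT η hη ε hε
    refine ⟨δ, hδ, ?_⟩
    filter_upwards [hW, hN, hM, h] with n hn h1 h2 h3
    rwa [hn.cons_le (FddAux.dep_bad (mul_nonneg hT h2)) h1]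

end

end Pool.Agent.Lib.MP_0d9445_pr.Lim
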